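import Pool.Agent.ANS.T4.Use
import Pool.Agent.ANS.DigB
import Pool.Agent.ANS.JPowB

/-! # ANS/T4 TopB: the T4 component of the jump engine, general laws (Part B; helper12)

`Yo ok Y s` = sites of `Y` which are good at `s`.  `GamTB` = positive part functional of
`Tx (Yo s) s x - Tx Y nil x` (weak sites are dropped from the fourth power sums).  At the
configuration `s` the set `Yo s` is frozen (`CompB_of_le`: the true values are smaller at read values and
equal at the unread value), so that only the rank one calculus of the frozen sum enters.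
`compTB`: `CompB` for `GamTB` with rows `Xr ⊆ X` (`N, Y ⊆ Xr`); rates `r_w ≤ 2` by the law
`(1 - r/2) δ_none + (r/2) pr` on `Option D`. -/

set_option autoImplicit false
set_option linter.unusedSectionVars false

open Finset Function Matrix

noncomputable section

namespace Pool.Agent.ANS

open Pool.Agent.Kin Pool.Agent.APS Pool.Agent.ANL

/-- comparison of functionals which agree at `s` -/
theorem CompB_of_le {N A : Type} [Fintype N] [DecidableEq N] [Fintype A] [DecidableEq A]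
    {pr : N → A → ℝ} {ok : N → Option A → Prop} {Γ Γ' : (N → Option A) → ℝ}
    {s : N → Option A} {al be dl : ℝ} (h : CompB pr ok Γ' s al be dl) (hs : Γ s = Γ' s)
    (h1 : ∀ w, ok w (s w) → ∀ b, Γ (update s w b) ≤ Γ' (update s w b))
    (h2 : ∀ w, ok w (s w) → Γ' (update s w none) ≤ Γ (update s w none)) :
    CompB pr ok Γ s al be dl := by
  obtain ⟨l, q, m, a1, a2, a3, a4, a5, a6, a7, a8⟩ := h
  refine ⟨l, q, m, a1, a2, fun w hw a => ?_, fun w hw => ?_, a5, fun w hw b => ?_,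
    fun r hr => ?_, fun r hr => ?_⟩
  · rw [hs]
    exact (h1 w hw (some a)).trans (a3 w hw a)
  · rw [hs]
    exact (a4 w hw).trans (h2 w hw)
  · rw [hs]
    exact (h1 w hw b).trans (a6 w hw b)
  · rw [hs]
    exact a7 r hr
  · rw [hs]
    exact a8 r hr

variable {T D : Type} [Fintype T] [DecidableEq T]

open Classical in
/-- the good sites of `Y` at `s` -/
def Yo (ok : T → Option D → Prop) (Y : Finset T) (s : T → Option D) : Finset T :=
  Y.filter fun y => ok y (s y)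

theorem Yo_sub (ok : T → Option D → Prop) (Y : Finset T) (s : T → Option D) : Yo ok Y s ⊆ Y := by
  classical
  unfold Yo
  exact Finset.filter_subset _ _

theorem mem_Yo {ok : T → Option D → Prop} {Y : Finset T} {s : T → Option D} {y : T} :
    y ∈ Yo ok Y s ↔ y ∈ Y ∧ ok y (s y) := by
  classical
  unfold Yo
  rw [Finset.mem_filter]

theorem Yo_up {ok : T → Option D → Prop} {Y : Finset T} {s : T → Option D} {w : T}
    (hw : ok w (s w)) (b : Option D) : Yo ok Y (update s w b) ⊆ Yo ok Y s := by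
  intro y hy
  rw [mem_Yo] at hy ⊢
  refine ⟨hy.1, ?_⟩
  by_cases h : y = w
  · subst h
    exact hw
  · have h2 := hy.2
    rwa [update_of_ne h] at h2

theorem Yo_none {ok : T → Option D → Prop} (hok : ∀ w, ok w none) {Y : Finset T}
    {s : T → Option D} {w : T} (hw : ok w (s w)) : Yo ok Y (update s w none) = Yo ok Y s := by
  refine Finset.Subset.antisymm (Yo_up hw none) fun y hy => ?_
  rw [mem_Yo] at hy ⊢
  refine ⟨hy.1, ?_⟩
  by_cases h : y = w
  · subst h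
    rw [update_self]
    exact hok y
  · rw [update_of_ne h]
    exact hy.2

namespace Stp

/-- the T4 functional, general laws (rows `X`) -/
def GamTB (P : Stp T D) (ok : T → Option D → Prop) (X Y : Finset T) (e : T → Option D → ℝ)
    (t : ℝ) (p : ℕ) (s : T → Option D) : ℝ :=
  ∑ x : ↥X, e x (s x) * (max (P.Tx (Yo ok Y s) s x - P.Tx Y nil x) 0 / t) ^ (2 * p)

end Stp

variable [Fintype D] [DecidableEq D] {P : Stp T D} {ok : T → Option D → Prop} {X N : Finset T}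
  {c be : T → ℝ} {e : T → Option D → ℝ} {C Lm : ℝ}

theorem Yo_nil (hok : ∀ w, ok w none) (Y : Finset T) : Yo ok Y nil = Y := by
  ext y
  rw [mem_Yo]
  exact ⟨fun h => h.1, fun h => ⟨h, hok y⟩⟩

namespace Stp

theorem Tx_mono (P : Stp T D) {Y Y' : Finset T} (h : Y ⊆ Y') (s : T → Option D) (x : T) :
    P.Tx Y s x ≤ P.Tx Y' s x :=
  Finset.sum_le_sum_of_subset_of_nonneg h fun y _ _ => by positivity

theorem GamTB_nonneg {Xr : Finset T} (he : ∀ x ∈ Xr, ∀ b, 0 < e x b) (Y : Finset T) (t : ℝ)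
    (p : ℕ) (s : T → Option D) : 0 ≤ P.GamTB ok Xr Y e t p s :=
  Finset.sum_nonneg fun x _ =>
    mul_nonneg (he x.1 x.2 _).le ((even_two_mul p).pow_nonneg _)

theorem GamTB_nil {Xr : Finset T} (hok : ∀ w, ok w none) (Y : Finset T) (t : ℝ) {p : ℕ}
    (hp : 1 ≤ p) : P.GamTB ok Xr Y e t p nil = 0 := by
  unfold GamTB
  refine Finset.sum_eq_zero fun x _ => ?_
  rw [Yo_nil hok, sub_self, max_self, zero_div, zero_pow (by omega), mul_zero]

theorem GamTB_use {Xr : Finset T} (he : ∀ x ∈ Xr, ∀ b, 0 < e x b) {Y : Finset T} {t t' : ℝ}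
    (ht : 0 < t) (ht' : 0 ≤ t') {p : ℕ} (hb : ∀ x ∈ Xr, ∀ b, 1 < e x b * (t' / t) ^ (2 * p))
    {s : T → Option D} (hs : P.GamTB ok Xr Y e t p s ≤ 1) :
    ∀ x ∈ Xr, P.Tx (Yo ok Y s) s x ≤ P.Tx Y nil x + t' := by
  intro x hx
  by_contra hcon
  push Not at hcon
  have h1 : t' < max (P.Tx (Yo ok Y s) s x - P.Tx Y nil x) 0 :=
    lt_of_lt_of_le (by linarith) (le_max_left _ _)
  have h2 : e x (s x) * (max (P.Tx (Yo ok Y s) s x - P.Tx Y nil x) 0 / t) ^ (2 * p) ≤ 1 := by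
    refine le_trans ?_ hs
    unfold GamTB
    exact Finset.single_le_sum
      (f := fun x : ↥Xr => e x (s x) *
        (max (P.Tx (Yo ok Y s) s x - P.Tx Y nil x) 0 / t) ^ (2 * p))
      (fun y _ => mul_nonneg (he y.1 y.2 _).le ((even_two_mul p).pow_nonneg _))
      (Finset.mem_univ (⟨x, hx⟩ : ↥Xr))
  have h3 : (t' / t) ^ (2 * p) ≤
      (max (P.Tx (Yo ok Y s) s x - P.Tx Y nil x) 0 / t) ^ (2 * p) :=
    pow_le_pow_left₀ (by positivity) (div_le_div_of_nonneg_right h1.le ht.le) _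
  have h4 := hb x hx (s x)
  have h5 := mul_le_mul_of_nonneg_left h3 (he x hx (s x)).le
  linarith

end Stp

namespace Stp.OkB

variable (h : P.OkB ok X N c be e C Lm)

include h

/-- sums over the rows -/
theorem sum_Xr {Xr : Finset T} (s : T → Option D) (f : T → ℝ) (hf : ∀ x, 0 ≤ f x) :
    ∑ x : ↥Xr, P.eta s x * f x ≤ ∑ x, P.eta s x * f x := by
  rw [Finset.sum_coe_sort Xr (fun x => P.eta s x * f x)]
  exact Finset.sum_le_sum_of_subset_of_nonneg (Finset.subset_univ Xr) fun x _ _ =>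
    mul_nonneg (h.eta0 s x) (hf x)

/-- sums over the noise sites -/
theorem sum_N {s : T → Option D} (f : T → ℝ) (hf : ∀ w, bo ok be s w = 0 → f w = 0) :
    ∑ w : ↥N, f w = ∑ w, f w := by
  rw [Finset.sum_coe_sort N f]
  exact Finset.sum_subset (Finset.subset_univ N) fun w _ hw => hf w (h.bo_N hw)

theorem sum_Nc {s : T → Option D} (f : T → ℂ) (hf : ∀ w, bo ok be s w = 0 → f w = 0) :
    ∑ w : ↥N, f w = ∑ w, f w := by
  rw [Finset.sum_coe_sort N f]
  exact Finset.sum_subset (Finset.subset_univ N) fun w _ hw => hf w (h.bo_N hw)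

theorem T4hyp {Xr Y : Finset T} (hXr : Xr ⊆ X) (hNr : N ⊆ Xr) (hYr : Y ⊆ Xr) {kk : ℝ}
    (hk : 0 ≤ kk) (hkY : ∀ y ∈ Y, kk ≤ C * P.eta nil y) {kb : ℝ}
    (hb : ∀ w, 9 * be w ^ 2 ≤ kb) {s : T → Option D} (hE : P.Ent X 1 s) {tau : ℝ}
    (hT : ∀ x ∈ Xr, kk * P.Tx (Yo ok Y s) s x ≤ tau) (ht1 : tau ≤ 1) {iot ep : ℝ}
    (hI : ∀ x : ↥Xr, T4.II (omY (Yo ok Y s) kk) (fun w : ↥N => 3 * bo ok be s w) (P.gX Xr s)
      (eN hNr) x ≤ iot)
    (hep : 0 ≤ ep) {Dl : ↥N → ℂ} (hD : ∀ w, ‖Dl w‖ ≤ ep * (3 * bo ok be s w) ^ 2) :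
    T4.Hyp (omY (Yo ok Y s) kk) (fun y : ↥Xr => P.eta s y) (fun x : ↥Xr => e x (s x))
      (fun w : ↥N => 3 * bo ok be s w) (P.gX Xr s) (eN hNr) Dl
      (18 * C ^ 3) (2 * Lm) kb tau iot ep where
  C1 := by
    have h1 : 1 ≤ C ^ 3 := one_le_pow₀ h.C1
    linarith
  Lm1 := by linarith [h.Lm1]
  eta0 y := h.eta0 s y
  fx0 x := (h.e0 x (hXr x.2) _).le
  om0 y := by
    unfold omY
    split_ifs
    · exact hk
    · exact le_rfl
  om1 y := by
    have h0 := h.eta0 s y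
    have hC := h.C1
    have hC0 := h.C0
    unfold omY
    split_ifs with hy
    · rw [mem_Yo] at hy
      have h1 := hkY y hy.1
      have h2 := mul_le_mul_of_nonneg_left (h.etaLo hy.2) hC0
      have h3 : C * (C * P.eta s y) ≤ 18 * C ^ 3 * P.eta s y := by
        have h4 : C ^ 2 ≤ C ^ 3 := pow_le_pow_right₀ hC (by norm_num)
        have h5 := mul_le_mul_of_nonneg_right h4 h0
        have h6 : 0 ≤ C ^ 3 * P.eta s y := by positivity
        nlinarith
      linarith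
    · positivity
  U0 w := by
    have := h.bo0 s w
    positivity
  U2 w := by
    have h1 := hb w
    have h2 := h.bo_sq s w
    nlinarith
  sym x y := by
    unfold gX
    rw [h.symm]
  bd x y := h.entL hE (hXr x.2) (hXr y.2)
  ward x := by
    have h1 := h.sum_Xr (Xr := Xr) s (fun y => ‖P.G s x y‖ ^ 2) (fun y => sq_nonneg _)
    unfold gX
    refine h1.trans ?_
    have h3 := h.ward_s s x
    unfold S at h3
    rw [h3]
    have h2 := h.io_le hE (hXr x.2)
    have hC := h.C1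
    have h4 : C ≤ C ^ 3 := by
      calc C = C ^ 1 := (pow_one C).symm
        _ ≤ C ^ 3 := pow_le_pow_right₀ hC (by norm_num)
    linarith
  wardf x := by
    have h1 := h.row s hE x (hXr x.2)
    have hC := h.C1
    have h2 : ∑ y : ↥Xr, e y (s y) * ‖P.gX Xr s x y‖ ^ 2 ≤ C := by
      have h5 : ∑ y ∈ Xr, e y (s y) * P.S s y x ≤ ∑ y ∈ X, e y (s y) * P.S s y x :=
        Finset.sum_le_sum_of_subset_of_nonneg hXr fun y hy _ =>
          mul_nonneg (h.e0 y hy _).le (h.S0 s _ _)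
      have h6 := h5.trans h1
      rw [← Finset.sum_coe_sort Xr (fun y => e y (s y) * P.S s y x)] at h6
      refine le_trans (Finset.sum_le_sum fun y _ => le_of_eq ?_) h6
      unfold gX S
      rw [h.symm]
    have h4 : C ≤ C ^ 3 := by
      calc C = C ^ 1 := (pow_one C).symm
        _ ≤ C ^ 3 := pow_le_pow_right₀ hC (by norm_num)
    linarith
  wardU x := by
    have h1 := h.row_be hE (hXr x.2)
    have h2 : ∑ w : ↥N, (3 * bo ok be s w) ^ 2 * ‖P.gX Xr s x (eN hNr w)‖ ^ 2 =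
        ∑ w, (3 * bo ok be s w) ^ 2 * P.S s x w := by
      refine (h.sum_N (s := s) (fun w => (3 * bo ok be s w) ^ 2 * P.S s x w) ?_)
      intro w hw
      rw [hw]
      ring
    have h3 : ∑ w, (3 * bo ok be s w) ^ 2 * P.S s x w = 9 * ∑ w, bo ok be s w ^ 2 * P.S s x w := by
      rw [Finset.mul_sum]
      exact Finset.sum_congr rfl fun w _ => by ring
    refine (le_of_eq h2).trans ?_
    rw [h3]
    linarith
  op hh := by
    have hC := h.C1
    have hC0 := h.C0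
    have h1 := h.contr_be s (fun w => if hw : w ∈ N then hh ⟨w, hw⟩ else 0)
    have h2 : ∀ y, ∑ w : ↥N, (((3 * bo ok be s w) ^ 2 : ℝ) : ℂ) * (hh w * P.G s w y) =
        9 * ∑ w, ((bo ok be s w ^ 2 : ℝ) : ℂ) *
          ((if hw : w ∈ N then hh ⟨w, hw⟩ else 0) * P.G s w y) := by
      intro y
      have h3 := h.sum_Nc (s := s) (fun w => (((3 * bo ok be s w) ^ 2 : ℝ) : ℂ) *
        ((if hw : w ∈ N then hh ⟨w, hw⟩ else 0) * P.G s w y)) (by
          intro w hw
          rw [hw]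
          simp)
      rw [Finset.mul_sum]
      refine Eq.trans (Eq.trans ?_ h3) ?_
      · refine Finset.sum_congr rfl fun w _ => ?_
        simp
      · refine Finset.sum_congr rfl fun w _ => ?_
        push_cast
        ring
    have h7 : ∑ y : ↥Xr, P.eta s y * ‖∑ w : ↥N, (((3 * bo ok be s w) ^ 2 : ℝ) : ℂ) *
        (hh w * P.gX Xr s (eN hNr w) y)‖ ^ 2 ≤
        ∑ y, P.eta s y * ‖∑ w : ↥N, (((3 * bo ok be s w) ^ 2 : ℝ) : ℂ) *
          (hh w * P.G s w y)‖ ^ 2 :=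
      h.sum_Xr (Xr := Xr) s (fun y => ‖∑ w : ↥N, (((3 * bo ok be s w) ^ 2 : ℝ) : ℂ) *
        (hh w * P.G s w y)‖ ^ 2) (fun y => sq_nonneg _)
    refine h7.trans ?_
    have h8 : ∑ y, P.eta s y * ‖∑ w : ↥N, (((3 * bo ok be s w) ^ 2 : ℝ) : ℂ) *
          (hh w * P.G s w y)‖ ^ 2 = 81 * ∑ y, P.eta s y * ‖∑ w, ((bo ok be s w ^ 2 : ℝ) : ℂ) *
          ((if hw : w ∈ N then hh ⟨w, hw⟩ else 0) * P.G s w y)‖ ^ 2 := by
      rw [Finset.mul_sum]
      refine Finset.sum_congr rfl fun y _ => ?_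
      rw [h2, norm_mul, mul_pow]
      norm_num
      ring
    rw [h8]
    have h9 : ∑ w, bo ok be s w ^ 2 * ‖(if hw : w ∈ N then hh ⟨w, hw⟩ else 0)‖ ^ 2 =
        ∑ w : ↥N, bo ok be s w ^ 2 * ‖hh w‖ ^ 2 := by
      rw [← h.sum_N (s := s) (fun w => bo ok be s w ^ 2 *
        ‖(if hw : w ∈ N then hh ⟨w, hw⟩ else 0)‖ ^ 2) (by
          intro w hw
          rw [hw]
          ring)]
      refine Finset.sum_congr rfl fun w _ => ?_
      simp
    rw [h9] at h1
    have h10 : ∑ w : ↥N, (3 * bo ok be s w) ^ 2 * ‖hh w‖ ^ 2 =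
        9 * ∑ w : ↥N, bo ok be s w ^ 2 * ‖hh w‖ ^ 2 := by
      rw [Finset.mul_sum]
      exact Finset.sum_congr rfl fun w _ => by ring
    rw [h10]
    have h11 : 0 ≤ ∑ w : ↥N, bo ok be s w ^ 2 * ‖hh w‖ ^ 2 :=
      Finset.sum_nonneg fun w _ => by positivity
    have h12 : C ^ 2 ≤ C ^ 3 := pow_le_pow_right₀ hC (by norm_num)
    have h13 := mul_le_mul_of_nonneg_right h12 h11
    have h14 : 0 ≤ C ^ 3 * ∑ w : ↥N, bo ok be s w ^ 2 * ‖hh w‖ ^ 2 := by positivity
    nlinarith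
  T x := by
    have h1 := hT x x.2
    refine le_trans (le_of_eq ?_) h1
    unfold T4.TT omY gX Tx
    rw [Finset.mul_sum]
    have h2 : ∑ y : ↥Xr, (if (y : T) ∈ Yo ok Y s then kk else 0) * ‖P.G s x y‖ ^ 4 =
        ∑ y ∈ Xr, (if y ∈ Yo ok Y s then kk else 0) * ‖P.G s x y‖ ^ 4 :=
      Finset.sum_coe_sort Xr (fun y => (if y ∈ Yo ok Y s then kk else 0) * ‖P.G s x y‖ ^ 4)
    rw [h2, ← Finset.sum_subset ((Yo_sub ok Y s).trans hYr) (fun y _ hy => by simp [hy])]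
    refine Finset.sum_congr rfl fun y hy => ?_
    simp [hy]
  tau1 := ht1
  I := hI
  ep0 := hep
  D := hD


omit h [Fintype D] [DecidableEq D] in
theorem TT_eq {Xr Y : Finset T} (hYX : Y ⊆ Xr) (kk : ℝ) (s : T → Option D) (x : ↥Xr) :
    T4.TT (omY Y kk) (P.gX Xr s) x = kk * P.Tx Y s x := by
  unfold T4.TT omY gX Tx
  rw [Finset.mul_sum]
  have h2 : ∑ y : ↥Xr, (if (y : T) ∈ Y then kk else 0) * ‖P.G s x y‖ ^ 4 =
      ∑ y ∈ Xr, (if y ∈ Y then kk else 0) * ‖P.G s x y‖ ^ 4 :=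
    Finset.sum_coe_sort Xr (fun y => (if y ∈ Y then kk else 0) * ‖P.G s x y‖ ^ 4)
  rw [h2, ← Finset.sum_subset hYX (fun y _ hy => by simp [hy])]
  refine Finset.sum_congr rfl fun y hy => ?_
  simp [hy]

theorem TTr_eq {Xr Y : Finset T} (hNr : N ⊆ Xr) (hYX : Y ⊆ Xr) (kk : ℝ) (s : T → Option D)
    (x : ↥Xr) (w : ↥N) (b : Option D) {u : ↥N → Option D → ℂ} (hu : u w b = P.u s w b) :
    T4.TTr (omY Y kk) (P.gX Xr s) (eN hNr) u x w b =
      kk * P.Tx Y (update s (w : T) b) x := by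
  rw [← TT_eq hYX kk (update s (w : T) b) x]
  unfold T4.TTr T4.TT
  refine Finset.sum_congr rfl fun y _ => ?_
  unfold gX
  rw [h.rank1, hu]
  rfl

omit h [Fintype D] [DecidableEq D] in
/-- the triangle sum does not depend on the set of rows -/
theorem II_rows {Xr Y : Finset T} (hXr : Xr ⊆ X) (hNr : N ⊆ Xr) (hNX : N ⊆ X) (hYr : Y ⊆ Xr)
    (kk : ℝ) (s : T → Option D) (U : ↥N → ℝ) (x : ↥Xr) :
    T4.II (omY Y kk) U (P.gX Xr s) (eN hNr) x =
      T4.II (omY Y kk) U (P.gX X s) (eN hNX) ⟨x, hXr x.2⟩ := by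
  unfold T4.II
  refine Finset.sum_congr rfl fun w _ => ?_
  have h1 : ∀ Z : Finset T, Y ⊆ Z → ∑ y ∈ Z, (if y ∈ Y then kk else 0) *
      (U w ^ 2 * (‖P.G s x y‖ ^ 2 * (‖P.G s x w‖ ^ 2 * ‖P.G s w y‖ ^ 2))) =
      ∑ y ∈ Y, (if y ∈ Y then kk else 0) *
      (U w ^ 2 * (‖P.G s x y‖ ^ 2 * (‖P.G s x w‖ ^ 2 * ‖P.G s w y‖ ^ 2))) := fun Z hZ =>
    (Finset.sum_subset hZ (fun y _ hy => by simp [hy])).symm
  have h2 := Finset.sum_coe_sort Xr (fun y => (if y ∈ Y then kk else 0) *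
      (U w ^ 2 * (‖P.G s x y‖ ^ 2 * (‖P.G s x w‖ ^ 2 * ‖P.G s w y‖ ^ 2))))
  have h3 := Finset.sum_coe_sort X (fun y => (if y ∈ Y then kk else 0) *
      (U w ^ 2 * (‖P.G s x y‖ ^ 2 * (‖P.G s x w‖ ^ 2 * ‖P.G s w y‖ ^ 2))))
  exact (h2.trans (h1 Xr hYr)).trans (h3.trans (h1 X (hYr.trans hXr))).symm

theorem G_off (s : T → Option D) {w : T} (hw : w ∉ N) (b : Option D) :
    P.G (update s w b) = P.G s := by
  unfold G
  congr 1
  funext x
  have h1 := bs_up P s w b x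
  have h2 : P.nu s w b = 0 := by
    unfold nu
    rw [h.inc_off hw, h.inc_off hw, sub_zero]
  rw [h2] at h1
  simp only [ite_self] at h1
  exact sub_eq_zero.1 h1

theorem Tx_off {Y : Finset T} (s : T → Option D) {w : T} (hw : w ∉ N) (b : Option D) (x : T) :
    P.Tx Y (update s w b) x = P.Tx Y s x := by
  unfold Tx
  rw [h.G_off s hw b]

/-- **T4 component, general laws**: `CompB` for the fourth power functional at a configuration where
the a priori bounds hold -/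
theorem compTB {Xr Y : Finset T} (hXr : Xr ⊆ X) (hNr : N ⊆ Xr) (hYr : Y ⊆ Xr) {kk : ℝ}
    (hk : 0 < kk) (hkY : ∀ y ∈ Y, kk ≤ C * P.eta nil y) {kb : ℝ}
    (hb : ∀ w, 9 * be w ^ 2 ≤ kb) {s : T → Option D} (hE : P.Ent X 1 s) {tau : ℝ}
    (hT : ∀ x ∈ Xr, kk * P.Tx (Yo ok Y s) s x ≤ tau) (ht1 : tau ≤ 1) {iot ep : ℝ}
    (hI : ∀ x : ↥X, (x : T) ∈ Xr → T4.II (omY (Yo ok Y s) kk)
      (fun w : ↥N => 3 * bo ok be s w) (P.gX X s) (eN h.NX) x ≤ iot)
    (hep : 0 ≤ ep)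
    (hD : ∀ w ∈ N, ok w (s w) →
      ‖∑ d, (P.g.P w d : ℂ) * P.u s w (some d) - P.u s w none‖ ≤ ep * (9 * be w ^ 2))
    {t de : ℝ} (ht : 0 < t) (hkt : kk * t ≤ 1) (hd : 0 ≤ de) (hd1 : de ≤ 1) {q : ℕ} (hq : 1 ≤ q)
    (h1 : tau ^ 3 * ep ^ 4 ≤ de * (kk * t) ^ 4) (h2 : iot ≤ de * (kk * t))
    (h3 : tau * iot ≤ de * (kk * t) ^ 2) (h4 : (2 * Lm) ^ 2 * (kb * tau) ≤ de * (kk * t))
    {B dl : ℝ} (hB : T4.KT q (18 * C ^ 3) * (2 * Lm) ^ 2 * (∑ w ∈ N, 9 * be w ^ 2) *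
      (de ^ q / (kk * t) ^ 2) ≤ B) (hdl : 0 < dl) (hdl1 : dl ≤ 1)
    (hbd : KP (2 * q) * B ≤ dl ^ (2 * (2 * q))) (hs : P.GamTB ok Xr Y e t (2 * q) s ≤ 1) :
    CompB P.g.P ok (P.GamTB ok Xr Y e t (2 * q)) s (2 * KP (2 * q))
      (2 * (KP (2 * q) * (2 ^ (4 * q) * B + B))) dl := by
  classical
  obtain ⟨W, hW⟩ : ∃ W : Finset T, W = Yo ok Y s := ⟨_, rfl⟩
  rw [← hW] at hT hI
  have hWX : W ⊆ Xr := by
    rw [hW]
    exact (Yo_sub ok Y s).trans hYr
  have hI' : ∀ x : ↥Xr, T4.II (omY W kk) (fun w : ↥N => 3 * bo ok be s w) (P.gX Xr s)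
      (eN hNr) x ≤ iot := fun x => by
    rw [II_rows hXr hNr h.NX hWX]
    exact hI _ x.2
  obtain ⟨V, hV⟩ : ∃ V : ↥Xr → (T → Option D) → ℝ,
      ∀ x s', V x s' = P.Tx W s' x - P.Tx Y nil x := ⟨fun x s' => P.Tx W s' x - P.Tx Y nil x,
      fun x s' => rfl⟩
  -- reduction to the frozen set of good sites
  suffices hmain : CompB P.g.P ok
      (fun s' => ∑ x : ↥Xr, e x (s' x) * (max (V x s') 0 / t) ^ (2 * (2 * q))) s
      (2 * KP (2 * q)) (2 * (KP (2 * q) * (2 ^ (4 * q) * B + B))) dl by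
    refine CompB_of_le hmain ?_ ?_ ?_
    · unfold GamTB
      simp only [hV, ← hW]
    · intro w hw b
      unfold GamTB
      refine Finset.sum_le_sum fun x _ => ?_
      refine mul_le_mul_of_nonneg_left ?_ (h.e0 x (hXr x.2) _).le
      refine pow_le_pow_left₀ (div_nonneg (le_max_right _ _) ht.le) ?_ _
      refine div_le_div_of_nonneg_right (max_le_max ?_ le_rfl) ht.le
      rw [hV]
      have e1 := P.Tx_mono (Yo_up (Y := Y) hw b) (update s w b) x
      rw [← hW] at e1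
      linarith
    · intro w hw
      unfold GamTB
      refine Finset.sum_le_sum fun x _ => le_of_eq ?_
      rw [hV, Yo_none h.okn hw, ← hW]
  -- the numbers
  have hC1 := h.C1
  have hC0 := h.C0
  have hkt0 : 0 < kk * t := mul_pos hk ht
  obtain ⟨CC, hCC⟩ : ∃ CC : ℝ, CC = 18 * C ^ 3 := ⟨_, rfl⟩
  have hCC1 : 1 ≤ CC := by
    rw [hCC]
    have e1 : 1 ≤ C ^ 3 := one_le_pow₀ hC1
    linarith
  have hCC0 : 0 ≤ CC := by linarith
  -- the hypotheses at a drift vector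
  have hyp : ∀ Dl : ↥N → ℂ, (∀ w, ‖Dl w‖ ≤ ep * (3 * bo ok be s w) ^ 2) →
      T4.Hyp (omY W kk) (fun y : ↥Xr => P.eta s y) (fun x : ↥Xr => e x (s x))
        (fun w : ↥N => 3 * bo ok be s w) (P.gX Xr s) (eN hNr) Dl
        CC (2 * Lm) kb tau iot ep := by
    intro Dl hDl
    rw [hCC]
    subst hW
    exact h.T4hyp hXr hNr hYr hk.le hkY hb hE hT ht1 hI' hep hDl
  set om : ↥Xr → ℝ := omY W kk with hom
  set U : ↥N → ℝ := fun w => 3 * bo ok be s w with hU
  have H := hyp 0 (fun w => by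
    simp only [Pi.zero_apply, norm_zero]
    have e1 := sq_nonneg (3 * bo ok be s w)
    positivity)
  -- the good part of the amplitudes
  obtain ⟨uo, huo⟩ : ∃ uo : ↥N → Option D → ℂ,
      ∀ w a, uo w a = if ok w (s w) then P.u s w a else 0 :=
    ⟨fun w a => if ok w (s w) then P.u s w a else 0, fun w a => rfl⟩
  have huo1 : ∀ (w : ↥N) a, ok w (s w) → uo w a = P.u s w a := fun w a hw => by
    rw [huo, if_pos hw]
  have huoU : ∀ (w : ↥N) (a : Option D), ‖uo w a‖ ≤ U w := by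
    intro w a
    rw [huo, hU]
    by_cases hw : ok w (s w)
    · rw [if_pos hw]
      simp only [bo_ok hw]
      exact h.u_le hE w a
    · rw [if_neg hw, norm_zero]
      have := h.bo0 s w
      positivity
  -- true values
  have hTr : ∀ (x : ↥Xr) (w : ↥N) (b : Option D), ok w (s w) →
      P.Tx W (update s (w : T) b) x - P.Tx W s x =
      (T4.TTr om (P.gX Xr s) (eN hNr) uo x w b - T4.TT om (P.gX Xr s) x) / kk := by
    intro x w b hw
    rw [hom, h.TTr_eq hNr hWX kk s x w b (huo1 w b hw), TT_eq hWX]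
    field_simp
  -- the constants of the bounds
  obtain ⟨K1, hK1⟩ : ∃ K1 : ℝ, K1 = 3 ^ (4 * q) * (256 ^ q * CC ^ (5 * q) +
      16 ^ (4 * q) * CC ^ 6 + (6 * CC ^ 5) ^ (4 * q)) := ⟨_, rfl⟩
  obtain ⟨K2, hK2⟩ : ∃ K2 : ℝ, K2 = 2 ^ (2 * q) * (450 ^ (2 * q) * CC ^ 6 +
      (450 * CC ^ 10) ^ (2 * q)) := ⟨_, rfl⟩
  have hK10 : 0 ≤ K1 := by rw [hK1]; positivity
  have hK20 : 0 ≤ K2 := by rw [hK2]; positivity
  obtain ⟨Z, hZ⟩ : ∃ Z : ↥Xr → ℝ, ∀ x, Z x = de ^ q * ((2 * Lm) ^ 2 *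
      T4.sg U (P.gX Xr s) (eN hNr) x / (kk * t) ^ 2) :=
    ⟨fun x => de ^ q * ((2 * Lm) ^ 2 * T4.sg U (P.gX Xr s) (eN hNr) x / (kk * t) ^ 2),
      fun x => rfl⟩
  have hZ0 : ∀ x, 0 ≤ Z x := by
    intro x
    rw [hZ]
    have e1 : 0 ≤ T4.sg U (P.gX Xr s) (eN hNr) x := T4.sg_nonneg x
    positivity
  -- the sums
  have hsg : ∑ x : ↥Xr, e x (s x) * Z x ≤ CC * ((2 * Lm) ^ 2 *
      (∑ w ∈ N, 9 * be w ^ 2) * (de ^ q / (kk * t) ^ 2)) := by
    have e2 := H.sg_sum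
    have e3 : ∑ x : ↥Xr, e x (s x) * Z x = ((2 * Lm) ^ 2 * (de ^ q / (kk * t) ^ 2)) *
        ∑ x : ↥Xr, e x (s x) * T4.sg U (P.gX Xr s) (eN hNr) x := by
      rw [Finset.mul_sum]
      refine Finset.sum_congr rfl fun x _ => ?_
      rw [hZ]
      ring
    have e4 : ∑ w : ↥N, U w ^ 2 ≤ ∑ w ∈ N, 9 * be w ^ 2 := by
      rw [← Finset.sum_coe_sort N]
      refine Finset.sum_le_sum fun w _ => ?_
      rw [hU]
      have := h.bo_sq s w
      show (3 * bo ok be s w) ^ 2 ≤ 9 * be w ^ 2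
      nlinarith
    have hdq : 0 ≤ de ^ q / (kk * t) ^ 2 := by positivity
    rw [e3]
    calc ((2 * Lm) ^ 2 * (de ^ q / (kk * t) ^ 2)) *
        ∑ x : ↥Xr, e x (s x) * T4.sg U (P.gX Xr s) (eN hNr) x ≤
        ((2 * Lm) ^ 2 * (de ^ q / (kk * t) ^ 2)) * (CC * ∑ w ∈ N, 9 * be w ^ 2) :=
        mul_le_mul_of_nonneg_left (e2.trans (mul_le_mul_of_nonneg_left e4 hCC0)) (by positivity)
      _ = _ := by ring
  have hKB : (K1 + K2) * (CC * ((2 * Lm) ^ 2 * (∑ w ∈ N, 9 * be w ^ 2) *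
      (de ^ q / (kk * t) ^ 2))) ≤ B := by
    refine le_trans (le_of_eq ?_) hB
    unfold T4.KT
    rw [← hCC, ← hK1, ← hK2]
    ring
  have hS0 : 0 ≤ CC * ((2 * Lm) ^ 2 * (∑ w ∈ N, 9 * be w ^ 2) * (de ^ q / (kk * t) ^ 2)) := by
    have e1 : 0 ≤ ∑ w ∈ N, 9 * be w ^ 2 := Finset.sum_nonneg fun w _ => by positivity
    positivity
  obtain ⟨Dx, hDx⟩ : ∃ Dx : ↥Xr → ℝ, ∀ x, Dx x =
      2 * t * (K1 * Z x) ^ ((1 : ℝ) / (4 * q : ℕ)) :=
    ⟨fun x => 2 * t * (K1 * Z x) ^ ((1 : ℝ) / (4 * q : ℕ)), fun x => rfl⟩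
  have hKZ : ∀ x, 0 ≤ K1 * Z x := fun x => mul_nonneg hK10 (hZ0 x)
  have hq4 : (4 * q : ℕ) ≠ 0 := by omega
  refine comp_posB (2 * q) (by omega) P.g.P h.dig.P0 h.dig.P1 ok
    (fun (x : ↥Xr) s' => e x (s' x)) ?_ V ht s ?_ ?_
    (fun x w => if hw : w ∈ N then T4.dd om U (P.gX Xr s) (eN hNr) x ⟨w, hw⟩ / kk
      else 0) ?_ ?_ Dx
    (fun x => T4.QQ om U (P.gX Xr s) (eN hNr) x / kk ^ 2) ?_ ?_ ?_
    (bD := 2 ^ (4 * q) * B) (bQ := B) ?_ ?_ hdl hdl1 hbd ?_
  · exact fun x s' => (h.e0 x (hXr x.2) _).le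
  · exact fun w hw x => (h.e_none s hw x).le
  · exact fun w hw b x => h.e_up s hw b x
  · intro x w
    show 0 ≤ (if hw : w ∈ N then T4.dd om U (P.gX Xr s) (eN hNr) x ⟨w, hw⟩ / kk else 0)
    split_ifs with hw
    · exact div_nonneg (T4.dd_nonneg H.om0 H.U0 _ _) hk.le
    · exact le_rfl
  · intro x w b hok
    show |V x (update s w b) - V x s| ≤
      (if hw : w ∈ N then T4.dd om U (P.gX Xr s) (eN hNr) x ⟨w, hw⟩ / kk else 0)
    rw [hV, hV, sub_sub_sub_cancel_right]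
    by_cases hw : w ∈ N
    · rw [dif_pos hw, hTr x ⟨w, hw⟩ b hok, abs_div, abs_of_pos hk]
      exact div_le_div_of_nonneg_right (T4.jump_le H.om0 huoU _ ⟨w, hw⟩ b) hk.le
    · rw [dif_neg hw, h.Tx_off s hw b x, sub_self, abs_zero]
  · intro x
    rw [hDx]
    have := Real.rpow_nonneg (hKZ x) ((1 : ℝ) / (4 * q : ℕ))
    positivity
  · intro r hr x _
    -- the law with rates
    have hr0 := hr.r0
    have hr2 := hr.r2
    obtain ⟨pr', hpr'⟩ : ∃ pr' : ↥N → Option D → ℝ, (∀ w, pr' w none = 1 - r w / 2) ∧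
        ∀ w a, pr' w (some a) = r w / 2 * P.g.P w a :=
      ⟨fun w o => o.elim (1 - r w / 2) (fun a => r w / 2 * P.g.P w a),
        fun w => rfl, fun w a => rfl⟩
    obtain ⟨u2, hu2⟩ : ∃ u2 : ↥N → Option (Option D) → ℂ, ∀ w z, u2 w z = uo w z.join :=
      ⟨fun w z => uo w z.join, fun w z => rfl⟩
    obtain ⟨Dl, hDl⟩ : ∃ Dl : ↥N → ℂ, ∀ w, Dl w = (r w / 2 : ℝ) *
        (∑ d, (P.g.P w d : ℂ) * uo w (some d) - uo w none) :=
      ⟨fun w => (r w / 2 : ℝ) * (∑ d, (P.g.P w d : ℂ) * uo w (some d) - uo w none),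
        fun w => rfl⟩
    have hDlb : ∀ w, ‖Dl w‖ ≤ ep * (3 * bo ok be s w) ^ 2 := by
      intro w
      rw [hDl, norm_mul, Complex.norm_real, Real.norm_of_nonneg (by linarith [hr0 w])]
      by_cases hw : ok w (s w)
      · have e1 : ∑ d, (P.g.P w d : ℂ) * uo w (some d) - uo w none =
            ∑ d, (P.g.P w d : ℂ) * P.u s w (some d) - P.u s w none := by
          rw [huo1 w none hw]
          congr 1
          exact Finset.sum_congr rfl fun d _ => by rw [huo1 w (some d) hw]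
        rw [e1, bo_ok hw]
        have e2 := hD w w.2 hw
        have e3 : r w / 2 ≤ 1 := by linarith [hr2 w]
        have e4 : 0 ≤ ep * (9 * be w ^ 2) := by
          have := sq_nonneg (be w)
          positivity
        calc r w / 2 * ‖∑ d, (P.g.P w d : ℂ) * P.u s w (some d) - P.u s w none‖ ≤
              1 * (ep * (9 * be w ^ 2)) := mul_le_mul e3 e2 (norm_nonneg _) zero_le_one
          _ = _ := by ring
      · have e1 : r w = 0 := hr.off w hw
        rw [e1]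
        have := sq_nonneg (3 * bo ok be s w)
        simp only [zero_div, zero_mul]
        positivity
    have HD := hyp Dl hDlb
    have hp0 : ∀ w a, 0 ≤ pr' w a := by
      intro w a
      cases a with
      | none =>
        rw [hpr'.1]
        linarith [hr2 w]
      | some a =>
        rw [hpr'.2]
        have e1 := h.dig.P0 w a
        have e2 := hr0 w
        positivity
    have hp1 : ∀ w, ∑ a, pr' w a = 1 := by
      intro w
      rw [Fintype.sum_option, hpr'.1]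
      simp only [hpr'.2]
      rw [← Finset.mul_sum, h.dig.P1]
      ring
    have hu2U : ∀ w a, ‖u2 w a‖ ≤ U w := by
      intro w a
      rw [hu2]
      exact huoU w _
    have edr := T4.drift_le (W := ↥N) (G := P.gX Xr s) (e := eN hNr) (pr := pr') (u := u2)
      (U := U) H.om0 hp0 hp1 hu2U (x : ↥Xr)
    -- the drift amplitudes
    have eDl : (fun w => ∑ a, (pr' w a : ℂ) * u2 w (some a) - u2 w none) = Dl := by
      funext w
      rw [Fintype.sum_option, hpr'.1, hDl]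
      simp only [hpr'.2, hu2]
      show ((1 - r w / 2 : ℝ) : ℂ) * uo w none +
        ∑ a, ((r w / 2 * P.g.P w a : ℝ) : ℂ) * uo w (some a) - uo w none =
        (r w / 2 : ℝ) * (∑ d, (P.g.P w d : ℂ) * uo w (some d) - uo w none)
      have e1 : ∑ a, ((r w / 2 * P.g.P w a : ℝ) : ℂ) * uo w (some a) =
          (r w / 2 : ℝ) * ∑ d, (P.g.P w d : ℂ) * uo w (some d) := by
        rw [Finset.mul_sum]
        refine Finset.sum_congr rfl fun a _ => ?_
        push_cast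
        ring
      rw [e1]
      push_cast
      ring
    rw [eDl] at edr
    -- the drift of the true values
    have eTr : ∀ w : ↥N, ∑ a, pr' w a * T4.TTr om (P.gX Xr s) (eN hNr) u2 x w (some a) -
        T4.TTr om (P.gX Xr s) (eN hNr) u2 x w none =
        kk * (r w / 2 * (∑ b, P.g.P w b * V x (update s (w : T) (some b)) -
          V x (update s (w : T) none))) := by
      intro w
      have f1 : ∀ z : Option (Option D), T4.TTr om (P.gX Xr s) (eN hNr) u2 x w z =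
          T4.TTr om (P.gX Xr s) (eN hNr) uo x w z.join := by
        intro z
        unfold T4.TTr
        rw [hu2]
      rw [Fintype.sum_option, hpr'.1]
      simp only [hpr'.2, f1]
      show (1 - r w / 2) * T4.TTr om (P.gX Xr s) (eN hNr) uo x w none +
        ∑ a, r w / 2 * P.g.P w a * T4.TTr om (P.gX Xr s) (eN hNr) uo x w (some a) -
        T4.TTr om (P.gX Xr s) (eN hNr) uo x w none = _
      by_cases hw : ok w (s w)
      · have f2 : ∀ b, T4.TTr om (P.gX Xr s) (eN hNr) uo x w b =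
            kk * P.Tx W (update s (w : T) b) x := by
          intro b
          rw [hom]
          exact h.TTr_eq hNr hWX kk s x w b (huo1 w b hw)
        simp only [f2, hV]
        have f3 : ∑ a, r w / 2 * P.g.P w a * (kk * P.Tx W (update s (w : T) (some a)) x) =
            kk * (r w / 2) * ∑ a, P.g.P w a * P.Tx W (update s (w : T) (some a)) x := by
          rw [Finset.mul_sum]
          refine Finset.sum_congr rfl fun a _ => ?_
          ring
        have f4 : ∑ b, P.g.P w b * (P.Tx W (update s (w : T) (some b)) x - P.Tx Y nil x) =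
            ∑ a, P.g.P w a * P.Tx W (update s (w : T) (some a)) x - P.Tx Y nil x := by
          simp only [mul_sub, Finset.sum_sub_distrib]
          rw [← Finset.sum_mul, h.dig.P1, one_mul]
        rw [f3, f4]
        ring
      · have f2 : r w = 0 := hr.off w hw
        rw [f2]
        simp
    have eL : ∑ w, r w * (∑ b, P.g.P w b * V x (update s w (some b)) - V x (update s w none)) =
        2 / kk * ∑ w : ↥N, (∑ a, pr' w a *
          T4.TTr om (P.gX Xr s) (eN hNr) u2 x w (some a) -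
          T4.TTr om (P.gX Xr s) (eN hNr) u2 x w none) := by
      rw [Finset.sum_congr rfl fun w _ => eTr w, Finset.mul_sum,
        Finset.sum_coe_sort N (fun w => 2 / kk * (kk * (r w / 2 *
          (∑ b, P.g.P w b * V x (update s w (some b)) - V x (update s w none)))))]
      rw [← Finset.sum_subset (Finset.subset_univ N)]
      · refine Finset.sum_congr rfl fun w _ => ?_
        field_simp
      · intro w _ hw
        simp only [hV, h.Tx_off s hw _ x]
        rw [← Finset.sum_mul, h.dig.P1, one_mul, sub_self, mul_zero]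
    rw [eL]
    have eDD : ∑ w : ↥N, (∑ a, pr' w a *
          T4.TTr om (P.gX Xr s) (eN hNr) u2 x w (some a) -
          T4.TTr om (P.gX Xr s) (eN hNr) u2 x w none) ≤
        T4.DD om U (P.gX Xr s) (eN hNr) Dl x := (le_abs_self _).trans edr
    have eP := HD.D_pow hkt0 hkt hd hd1 hq h1 h2 h4 (x : ↥Xr)
    rw [← hK1, ← hZ] at eP
    have eD0 : 0 ≤ T4.DD om U (P.gX Xr s) (eN hNr) Dl (x : ↥Xr) := by
      have g1 : 0 ≤ T4.RR om (P.gX Xr s) (eN hNr) Dl (x : ↥Xr) := T4.RR_nonneg H.om0 _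
      have g2 : 0 ≤ T4.II om U (P.gX Xr s) (eN hNr) (x : ↥Xr) := T4.II_nonneg H.om0 _
      have g3 : 0 ≤ T4.EE om U (P.gX Xr s) (eN hNr) (x : ↥Xr) := T4.EE_nonneg H.om0 _
      unfold T4.DD
      positivity
    have eR : T4.DD om U (P.gX Xr s) (eN hNr) Dl x / (kk * t) ≤
        (K1 * Z x) ^ ((1 : ℝ) / (4 * q : ℕ)) := by
      have g1 : 0 ≤ T4.DD om U (P.gX Xr s) (eN hNr) Dl (x : ↥Xr) / (kk * t) :=
        div_nonneg eD0 hkt0.le
      calc T4.DD om U (P.gX Xr s) (eN hNr) Dl x / (kk * t) =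
            ((T4.DD om U (P.gX Xr s) (eN hNr) Dl x / (kk * t)) ^ (4 * q)) ^
              ((1 : ℝ) / (4 * q : ℕ)) := by
            rw [one_div, Real.pow_rpow_inv_natCast g1 hq4]
        _ ≤ _ := Real.rpow_le_rpow (by positivity) eP (by positivity)
    rw [div_le_iff₀ hkt0] at eR
    rw [hDx]
    calc 2 / kk * ∑ w : ↥N, (∑ a, pr' w a *
          T4.TTr om (P.gX Xr s) (eN hNr) u2 x w (some a) -
          T4.TTr om (P.gX Xr s) (eN hNr) u2 x w none) ≤
        2 / kk * ((K1 * Z x) ^ ((1 : ℝ) / (4 * q : ℕ)) * (kk * t)) :=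
        mul_le_mul_of_nonneg_left (eDD.trans eR) (by positivity)
      _ = _ := by
        field_simp
  · intro x
    show ∑ w, (if hw : w ∈ N then T4.dd om U (P.gX Xr s) (eN hNr) x ⟨w, hw⟩ / kk
      else 0) ^ 2 ≤ T4.QQ om U (P.gX Xr s) (eN hNr) x / kk ^ 2
    have e1 := T4.dd_QQ (om := om) (U := U) (G := P.gX Xr s) (e := eN hNr) H.om0
      (x : ↥Xr)
    have e2 : ∑ w, (if hw : w ∈ N then T4.dd om U (P.gX Xr s) (eN hNr) x ⟨w, hw⟩ / kk
        else 0) ^ 2 =
        (∑ w : ↥N, T4.dd om U (P.gX Xr s) (eN hNr) x w ^ 2) / kk ^ 2 := by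
      rw [← Finset.sum_subset (Finset.subset_univ N) (fun w _ hw => by simp [hw]),
        ← Finset.sum_coe_sort N, Finset.sum_div]
      refine Finset.sum_congr rfl fun w _ => ?_
      simp only [w.2, dif_pos, div_pow]
    rw [e2]
    exact div_le_div_of_nonneg_right e1 (by positivity)
  · have e1 : ∀ x : ↥Xr, (Dx x / t) ^ (2 * (2 * q)) = 2 ^ (4 * q) * (K1 * Z x) := by
      intro x
      rw [hDx, show 2 * (2 * q) = 4 * q by ring]
      have g1 : 2 * t * (K1 * Z x) ^ ((1 : ℝ) / (4 * q : ℕ)) / t =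
          2 * (K1 * Z x) ^ ((1 : ℝ) / (4 * q : ℕ)) := by
        field_simp
      rw [g1, mul_pow, one_div, Real.rpow_inv_natCast_pow (hKZ _) hq4]
    show ∑ x : ↥Xr, e x (s x) * (Dx x / t) ^ (2 * (2 * q)) ≤ 2 ^ (4 * q) * B
    have e2 : ∑ x : ↥Xr, e x (s x) * (Dx x / t) ^ (2 * (2 * q)) =
        2 ^ (4 * q) * (K1 * ∑ x : ↥Xr, e x (s x) * Z x) := by
      rw [Finset.mul_sum, Finset.mul_sum]
      refine Finset.sum_congr rfl fun x _ => ?_
      rw [e1]
      ring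
    rw [e2]
    refine mul_le_mul_of_nonneg_left ?_ (by positivity)
    refine (mul_le_mul_of_nonneg_left hsg hK10).trans (le_trans ?_ hKB)
    exact mul_le_mul_of_nonneg_right (by linarith) hS0
  · show ∑ x : ↥Xr, e x (s x) * (T4.QQ om U (P.gX Xr s) (eN hNr) x / kk ^ 2 /
      t ^ 2) ^ (2 * q) ≤ B
    have e1 : ∀ x : ↥Xr, (T4.QQ om U (P.gX Xr s) (eN hNr) x / kk ^ 2 /
        t ^ 2) ^ (2 * q) ≤ K2 * Z x := by
      intro x
      have g1 := H.Q_pow hkt0 hkt hd hd1 hq h3 h4 (x : ↥Xr)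
      rw [← hK2, ← hZ] at g1
      rw [div_div, ← mul_pow]
      exact g1
    calc ∑ x : ↥Xr, e x (s x) * (T4.QQ om U (P.gX Xr s) (eN hNr) x / kk ^ 2 /
          t ^ 2) ^ (2 * q) ≤ ∑ x : ↥Xr, e x (s x) * (K2 * Z x) :=
          Finset.sum_le_sum fun x _ => mul_le_mul_of_nonneg_left (e1 x) (h.e0 x (hXr x.2) _).le
      _ = K2 * ∑ x : ↥Xr, e x (s x) * Z x := by
          rw [Finset.mul_sum]
          exact Finset.sum_congr rfl fun x _ => by ring
      _ ≤ K2 * (CC * ((2 * Lm) ^ 2 * (∑ w ∈ N, 9 * be w ^ 2) * (de ^ q / (kk * t) ^ 2))) :=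
          mul_le_mul_of_nonneg_left hsg hK20
      _ ≤ B := le_trans (mul_le_mul_of_nonneg_right (by linarith) hS0) hKB
  · refine le_trans (le_of_eq ?_) hs
    unfold GamTB
    simp only [hV, ← hW]

end Stp.OkB

end Pool.Agent.ANS
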