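import Pool.Agent.ANS.T4.Phi

/-! # ANS/T4 PhiB: the triangle sum from (H4low), uniform in `η_* ≫ κ` (AND project)

Test function `u = κ 1_Y |G_x·|² / η`: the weights `κ dl_y ≤ dA η_y` (Good.lean, `Tol.In.dA`) enter, only
`Y` (active sites of the block) is used, `(H4low)` is needed only for functions supported on `Y`. -/

set_option autoImplicit false

open Finset

noncomputable section

namespace Pool.Agent.ANS.T4

open Pool.Agent.ANF.Heat

variable {d L : ℕ} {W : Type} [Fintype W]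

/-- **the triangle sum from (H4low), block form** -/
theorem II_leB [NeZero L] (hd : 3 ≤ d) (l : ℝ) (hl : 1 ≤ l) (hlL : l ≤ L)
    {X Y : Finset (Fin d → ZMod L)} (hYX : Y ⊆ X) {eta iota dl om : (Fin d → ZMod L) → ℝ}
    {G : (Fin d → ZMod L) → (Fin d → ZMod L) → ℂ} {e : W → (Fin d → ZMod L)} {U : W → ℝ}
    {K mm mk kk em Cu Ci dA : ℝ} (hK : 0 < K) (hmm : 0 ≤ mm) (hkk : 0 < kk) (hem : 0 < em)
    (he : Function.Injective e) (heY : ∀ w, U w ≠ 0 → e w ∈ Y)
    (heta : ∀ x ∈ X, 0 ≤ eta x) (heY' : ∀ x ∈ Y, em ≤ eta x)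
    (hi0 : ∀ x ∈ X, 0 ≤ iota x) (hiC : ∀ x ∈ X, iota x ≤ Ci)
    (hdl : ∀ x ∈ X, 0 ≤ dl x) (hdA : ∀ x ∈ Y, kk * dl x ≤ dA * eta x) (hdA0 : 0 ≤ dA)
    (hom : ∀ y ∈ Y, om y ≤ kk) (homY : ∀ y, y ∉ Y → om y = 0)
    (hCu : 0 ≤ Cu) (hU : ∀ w, U w ^ 2 ≤ Cu * kk)
    (hmA : ∀ x ∈ Y, eta x * iota x ≤ mm) (hmk : 0 < mk)
    (hmk' : mk ≤ ∑ x ∈ X, min (eta x * iota x) mm / (1 + dl x))
    (hS : ∀ x ∈ X, ∀ y ∈ X, ‖G x y‖ ^ 2 = ‖G y x‖ ^ 2)
    (hW : ∀ x ∈ X, ∑ y ∈ X, eta y * ‖G x y‖ ^ 2 = iota x)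
    (h4 : ∀ u : (Fin d → ZMod L) → ℝ, (∀ y, y ∉ Y → u y = 0) → ∃ a : (Fin d → ZMod L) → ℝ,
      DT a / K + ∑ x ∈ X, eta x * iota x * (u x - a x) ^ 2 / (1 + dl x) ≤
        Qf X eta (fun x y => ‖G x y‖ ^ 2) u)
    {x : Fin d → ZMod L} (hx : x ∈ X) :
    II om U G e x ≤ Cu * ((Ci * (dA + 4 * CH d * l ^ 2 * K * mm * (kk / em))) *
        (kk * ∑ y ∈ Y, ‖G x y‖ ^ 4) +
      (28 * CH d * rho d l * K + (3 + 24 * CH d * l ^ 2 * K * mm) / mk) *
        (Ci * (Ci * (kk / em))) ^ 2) := by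
  classical
  set u : (Fin d → ZMod L) → ℝ := fun y => if y ∈ Y then kk * ‖G x y‖ ^ 2 / eta y else 0 with hu
  have hpos : ∀ y ∈ Y, 0 < eta y := fun y hy => hem.trans_le (heY' y hy)
  have hu0 : ∀ y, 0 ≤ u y := fun y => by
    simp only [hu]; split_ifs with hy
    · have := hpos y hy
      positivity
    · exact le_rfl
  have hCi : 0 ≤ Ci := (hi0 x hx).trans (hiC x hx)
  obtain ⟨a, ha⟩ := h4 u (fun y hy => by simp [hu, hy])
  have hCH : 0 ≤ CH d := by unfold CH; positivity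
  have hrho : 0 ≤ rho d l := by unfold rho; positivity
  have hs : ∀ y ∈ X, u y ≠ 0 → eta y * iota y ≤ mm := fun y _ h0 => by
    by_cases hyA : y ∈ Y
    · exact hmA y hyA
    · exact absurd (by simp [hu, hyA]) h0
  have h1 := phi_le hd l hl hlL X (fun y => eta y * iota y) dl K mm mk _ hK hmm
    (fun y hy => mul_nonneg (heta y hy) (hi0 y hy)) hdl hmk hmk' u a hs ha
  rw [form_id hS hW u] at h1
  -- `η u = κ 1_Y |G|²`
  have hue : ∀ y ∈ Y, eta y * u y = kk * ‖G x y‖ ^ 2 := fun y hy => by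
    have := hpos y hy
    simp only [hu, hy, if_true]
    field_simp
  -- the triangle sum
  have h2 : II om U G e x ≤ Cu *
      ∑ y ∈ X, ∑ z ∈ X, (u y * eta y) * ‖G y z‖ ^ 2 * (eta z * u z) := by
    have h3 : II om U G e x ≤ ∑ w, (Cu * ∑ y ∈ Y, (u (e w) * eta (e w) *
        ‖G (e w) y‖ ^ 2 * (eta y * u y))) * (if U w = 0 then 0 else 1) := by
      unfold II
      refine Finset.sum_le_sum fun w _ => ?_
      have h4 : ∑ y, om y * (U w ^ 2 * (‖G x y‖ ^ 2 * (‖G x (e w)‖ ^ 2 * ‖G (e w) y‖ ^ 2))) =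
          ∑ y ∈ Y, om y * (U w ^ 2 * (‖G x y‖ ^ 2 * (‖G x (e w)‖ ^ 2 * ‖G (e w) y‖ ^ 2))) := by
        symm
        refine Finset.sum_subset (Finset.subset_univ Y) fun y _ hy => ?_
        rw [homY y hy, zero_mul]
      rw [h4]
      by_cases h0 : U w = 0
      · simp [h0]
      · rw [if_neg h0, mul_one, Finset.mul_sum]
        refine Finset.sum_le_sum fun y hy => ?_
        have hw := heY w h0
        have h5 := hom y hy
        have h6 := hU w
        rw [mul_comm (u (e w)), hue _ hw, hue y hy]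
        calc om y * (U w ^ 2 * (‖G x y‖ ^ 2 * (‖G x (e w)‖ ^ 2 * ‖G (e w) y‖ ^ 2)))
            ≤ kk * ((Cu * kk) * (‖G x y‖ ^ 2 * (‖G x (e w)‖ ^ 2 * ‖G (e w) y‖ ^ 2))) := by
              refine mul_le_mul h5 ?_ (by positivity) hkk.le
              exact mul_le_mul_of_nonneg_right h6 (by positivity)
          _ = _ := by ring
    refine h3.trans ?_
    have hX0 : ∀ z ∈ X, 0 ≤ ∑ y ∈ X, (u z * eta z) * ‖G z y‖ ^ 2 * (eta y * u y) := by
      intro z hz
      refine Finset.sum_nonneg fun y hy => ?_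
      have := heta z hz
      have := heta y hy
      have := hu0 z
      have := hu0 y
      positivity
    rw [Finset.mul_sum]
    have h9 : ∑ w, (Cu * ∑ y ∈ Y, (u (e w) * eta (e w) *
        ‖G (e w) y‖ ^ 2 * (eta y * u y))) * (if U w = 0 then 0 else 1) ≤
        ∑ w ∈ univ.filter (fun w => U w ≠ 0),
          Cu * ∑ y ∈ X, (u (e w) * eta (e w)) * ‖G (e w) y‖ ^ 2 * (eta y * u y) := by
      rw [Finset.sum_filter]
      refine Finset.sum_le_sum fun w _ => ?_
      by_cases h0 : U w = 0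
      · simp [h0]
      · rw [if_pos h0, if_neg h0, mul_one]
        refine mul_le_mul_of_nonneg_left ?_ hCu
        refine Finset.sum_le_sum_of_subset_of_nonneg hYX fun y hy _ => ?_
        have := heta _ (hYX (heY w h0))
        have := heta y hy
        have := hu0 (e w)
        have := hu0 y
        positivity
    refine h9.trans ?_
    rw [← Finset.sum_image (s := univ.filter (fun w => U w ≠ 0)) (g := e)
      (f := fun z => Cu * ∑ y ∈ X, (u z * eta z) * ‖G z y‖ ^ 2 * (eta y * u y))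
      (fun _ _ _ _ hh => he hh)]
    refine Finset.sum_le_sum_of_subset_of_nonneg ?_ fun z hz _ =>
      mul_nonneg hCu (hX0 z hz)
    intro z hz
    obtain ⟨w, hw, rfl⟩ := Finset.mem_image.1 hz
    exact hYX (heY w (Finset.mem_filter.1 hw).2)
  refine h2.trans (mul_le_mul_of_nonneg_left (h1.trans ?_) hCu)
  -- sums over `Y`
  have hsub : ∀ F : (Fin d → ZMod L) → ℝ, (∀ y, y ∉ Y → F y = 0) →
      ∑ y ∈ X, F y = ∑ y ∈ Y, F y := fun F hF =>
    (Finset.sum_subset hYX fun y _ hy => hF y hy).symm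
  have hmu : ∀ y ∈ Y, eta y * iota y * u y ^ 2 = iota y * (kk * ‖G x y‖ ^ 2) ^ 2 / eta y := by
    intro y hy
    have := hpos y hy
    have h5 := hue y hy
    rw [← h5]
    field_simp
  have hke : ∀ y ∈ Y, kk / eta y ≤ kk / em := fun y hy =>
    div_le_div_of_nonneg_left hkk.le hem (heY' y hy)
  have h10 : ∑ y ∈ X, eta y * iota y * u y ^ 2 ≤ Ci * (kk / em) * (kk * ∑ y ∈ Y, ‖G x y‖ ^ 4) := by
    rw [hsub _ fun y hy => by simp [hu, hy], Finset.mul_sum, Finset.mul_sum]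
    refine Finset.sum_le_sum fun y hy => ?_
    rw [hmu y hy]
    have h12 := hiC y (hYX hy)
    have h13 := hpos y hy
    have h14 := hke y hy
    have h15 : 0 ≤ kk / em := by positivity
    calc iota y * (kk * ‖G x y‖ ^ 2) ^ 2 / eta y = iota y * (kk / eta y) * (kk * ‖G x y‖ ^ 4) := by
          ring
      _ ≤ Ci * (kk / em) * (kk * ‖G x y‖ ^ 4) := by
          refine mul_le_mul_of_nonneg_right ?_ (by positivity)
          exact mul_le_mul h12 h14 (by positivity) hCi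
      _ = _ := by ring
  have h14 : ∑ y ∈ X, dl y / (1 + dl y) * (eta y * iota y * u y ^ 2) ≤
      Ci * dA * (kk * ∑ y ∈ Y, ‖G x y‖ ^ 4) := by
    rw [hsub _ fun y hy => by simp [hu, hy], Finset.mul_sum, Finset.mul_sum]
    refine Finset.sum_le_sum fun y hy => ?_
    rw [hmu y hy]
    have h12 := hiC y (hYX hy)
    have h13 := hpos y hy
    have h15 := hdl y (hYX hy)
    have h16 := hi0 y (hYX hy)
    have h17 : dl y / (1 + dl y) ≤ dl y := div_le_self h15 (by linarith)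
    have h18 : kk * dl y / eta y ≤ dA := by
      rw [div_le_iff₀ h13]
      exact hdA y hy
    calc dl y / (1 + dl y) * (iota y * (kk * ‖G x y‖ ^ 2) ^ 2 / eta y)
        ≤ dl y * (iota y * (kk * ‖G x y‖ ^ 2) ^ 2 / eta y) :=
          mul_le_mul_of_nonneg_right h17 (by positivity)
      _ = iota y * (kk * dl y / eta y) * (kk * ‖G x y‖ ^ 4) := by ring
      _ ≤ Ci * dA * (kk * ‖G x y‖ ^ 4) := by
          refine mul_le_mul_of_nonneg_right ?_ (by positivity)
          exact mul_le_mul h12 h18 (by positivity) hCi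
      _ = _ := by ring
  have hrow : ∑ y ∈ Y, ‖G x y‖ ^ 2 ≤ iota x / em := by
    rw [le_div_iff₀ hem, Finset.sum_mul, ← hW x hx]
    refine le_trans (Finset.sum_le_sum fun y hy => ?_)
      (Finset.sum_le_sum_of_subset_of_nonneg hYX fun y hy _ =>
        mul_nonneg (heta y hy) (by positivity))
    rw [mul_comm]
    exact mul_le_mul_of_nonneg_right (heY' y hy) (by positivity)
  have h17 : ∑ y ∈ X, eta y * iota y * |u y| ≤ Ci * (Ci * (kk / em)) := by
    rw [hsub _ fun y hy => by simp [hu, hy]]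
    calc ∑ y ∈ Y, eta y * iota y * |u y| ≤ ∑ y ∈ Y, Ci * (kk * ‖G x y‖ ^ 2) := by
          refine Finset.sum_le_sum fun y hy => ?_
          rw [abs_of_nonneg (hu0 y), mul_comm (eta y), mul_assoc, hue y hy]
          exact mul_le_mul_of_nonneg_right (hiC y (hYX hy)) (by positivity)
      _ = Ci * (kk * ∑ y ∈ Y, ‖G x y‖ ^ 2) := by rw [Finset.mul_sum, Finset.mul_sum]
      _ ≤ Ci * (kk * (iota x / em)) := by
          refine mul_le_mul_of_nonneg_left ?_ hCi
          exact mul_le_mul_of_nonneg_left hrow hkk.le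
      _ ≤ Ci * (Ci * (kk / em)) := by
          refine mul_le_mul_of_nonneg_left ?_ hCi
          have h19 := hiC x hx
          calc kk * (iota x / em) = iota x * (kk / em) := by ring
            _ ≤ _ := mul_le_mul_of_nonneg_right h19 (by positivity)
  have h18 : 0 ≤ ∑ y ∈ X, eta y * iota y * |u y| := Finset.sum_nonneg fun y hy =>
    mul_nonneg (mul_nonneg (heta y hy) (hi0 y hy)) (abs_nonneg _)
  have h19 : (∑ y ∈ X, eta y * iota y * |u y|) ^ 2 ≤ (Ci * (Ci * (kk / em))) ^ 2 :=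
    pow_le_pow_left₀ h18 h17 2
  have h20 : 0 ≤ 28 * CH d * rho d l * K + (3 + 24 * CH d * l ^ 2 * K * mm) / mk := by positivity
  have h21 : 0 ≤ 4 * CH d * l ^ 2 * K * mm := by positivity
  calc ∑ y ∈ X, dl y / (1 + dl y) * (eta y * iota y * u y ^ 2) +
        4 * CH d * l ^ 2 * K * mm * ∑ y ∈ X, eta y * iota y * u y ^ 2 +
        (28 * CH d * rho d l * K + (3 + 24 * CH d * l ^ 2 * K * mm) / mk) *
          (∑ y ∈ X, eta y * iota y * |u y|) ^ 2
      ≤ Ci * dA * (kk * ∑ y ∈ Y, ‖G x y‖ ^ 4) +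
        4 * CH d * l ^ 2 * K * mm * (Ci * (kk / em) * (kk * ∑ y ∈ Y, ‖G x y‖ ^ 4)) +
        (28 * CH d * rho d l * K + (3 + 24 * CH d * l ^ 2 * K * mm) / mk) *
          (Ci * (Ci * (kk / em))) ^ 2 := by
        refine add_le_add (add_le_add h14 ?_) ?_
        · exact mul_le_mul_of_nonneg_left h10 h21
        · exact mul_le_mul_of_nonneg_left h19 h20
    _ = _ := by ring

end Pool.Agent.ANS.T4
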