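import Pool.Agent.ANS.T4.Comp
import Pool.Agent.ANS.JPow
import Pool.Agent.ANS.Dig
import Pool.Agent.ANM.FBase

/-! # ANS/T4 Top: the T4 component of the jump engine (AND project)

`Tx Y s x = ∑_{y ∈ Y} |G_xy(s)|⁴` (unweighted, `Y` = active sites), `GamT` the power functional of the
increments `Tx s - Tx nil` with tolerance `t` and counting weights `e`.  `compT`: `CompAt` at every
configuration `s` where the a priori bounds hold. -/

set_option autoImplicit false

open Finset Function Matrix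

noncomputable section

namespace Pool.Agent.ANS

open Pool.Agent.Kin Pool.Agent.APS Pool.Agent.ANL

variable {T D : Type} [Fintype T] [DecidableEq T]

namespace Stp

/-- unweighted fourth power sum -/
def Tx (P : Stp T D) (Y : Finset T) (s : T → Option D) (x : T) : ℝ :=
  ∑ y ∈ Y, ‖P.G s x y‖ ^ 4

/-- the T4 functional -/
def GamT (P : Stp T D) (X Y : Finset T) (e : T → ℝ) (t : ℝ) (p : ℕ) (s : T → Option D) : ℝ :=
  ∑ x : ↥X, e x * (‖((P.Tx Y s x - P.Tx Y nil x : ℝ) : ℂ)‖ / t) ^ (2 * p)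

/-- restriction of the Green function to `X` -/
def gX (P : Stp T D) (X : Finset T) (s : T → Option D) : ↥X → ↥X → ℂ := fun x y => P.G s x y

/-- weights `kk 1_Y` on `X` -/
def omY {X : Finset T} (Y : Finset T) (kk : ℝ) : ↥X → ℝ := fun y => if (y : T) ∈ Y then kk else 0

end Stp

open Stp

/-- the embedding of the noise sites -/
def eN {X N : Finset T} (hNX : N ⊆ X) : ↥N → ↥X := fun w => ⟨w, hNX w.2⟩

variable [Fintype D] [DecidableEq D] {P : Stp T D} {X N : Finset T} {c be e : T → ℝ} {C Lm : ℝ}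

namespace Stp.Ok

variable (h : P.Ok X N c be e C Lm)

include h

theorem sum_X (s : T → Option D) (f : T → ℝ) :
    ∑ x : ↥X, P.eta s x * f x = ∑ x, P.eta s x * f x := by
  rw [Finset.sum_coe_sort X (fun x => P.eta s x * f x)]
  refine Finset.sum_subset (Finset.subset_univ X) fun x _ hx => ?_
  rw [h.etaU' s hx, zero_mul]

theorem diss (s : T → Option D) : ANM.Diss P.H (P.bs s) :=
  ⟨(h.adms s).sym, (h.adms s).im, (h.adms s).unit⟩

theorem wardX (s : T → Option D) (x : T) :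
    ∑ y, P.eta s y * ‖P.G s x y‖ ^ 2 = P.io s x := by
  have h1 := (h.diss s).ward x
  unfold io G
  rw [h1]
  refine Finset.sum_congr rfl fun y _ => ?_
  unfold eta
  ring

theorem t4_io_le {s : T → Option D} (hE : P.Ent X 1 s) {x : T} (hx : x ∈ X) : P.io s x ≤ 2 * C :=
  ((le_abs_self _).trans (Complex.abs_im_le_norm _)).trans (h.diaC hE hx)

theorem T4hyp {Y : Finset T} {kk : ℝ} (hk : 0 ≤ kk)
    (hkY : ∀ y ∈ Y, kk ≤ C * P.eta nil y) {kb : ℝ}
    (hb : ∀ w, 9 * be w ^ 2 ≤ kb) {s : T → Option D} (hE : P.Ent X 1 s)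
    (hYX : Y ⊆ X) {tau : ℝ}
    (hT : ∀ x ∈ X, kk * P.Tx Y s x ≤ tau) (ht1 : tau ≤ 1) {iot ep : ℝ}
    (hI : ∀ x : ↥X, T4.II (omY Y kk) (fun w : ↥N => 3 * be w) (P.gX X s) (eN h.NX) x ≤ iot)
    (hep : 0 ≤ ep)
    (hD : ∀ w ∈ N, ‖∑ d, (P.g.P w d : ℂ) * P.u s w (some d) - P.u s w none‖ ≤
      ep * (9 * be w ^ 2)) :
    T4.Hyp (omY Y kk) (fun y : ↥X => P.eta s y) (fun x : ↥X => e x) (fun w : ↥N => 3 * be w)
      (P.gX X s) (eN h.NX)
      (fun w : ↥N => ∑ d, (P.g.P w d : ℂ) * P.u s w (some d) - P.u s w none)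
      (144 * C ^ 2) (2 * Lm) kb tau iot ep where
  C1 := by nlinarith [h.C1]
  Lm1 := by linarith [h.Lm1]
  eta0 y := h.eta0 s y
  fx0 x := (h.e0 x x.2).le
  om0 y := by
    unfold omY
    split_ifs
    · exact hk
    · exact le_rfl
  om1 y := by
    have h0 := h.eta0 s y
    have hC := h.C1
    unfold omY
    split_ifs with hy
    · have h1 := hkY y hy
      have h2 := h.etaLo s y
      have h3 : P.eta nil y ≤ 8 * P.eta s y := by linarith
      have h4 : C * P.eta nil y ≤ C * (8 * P.eta s y) := mul_le_mul_of_nonneg_left h3 h.C0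
      have h5 : C * (8 * P.eta s y) ≤ 144 * C ^ 2 * P.eta s y := by nlinarith [mul_nonneg h0 h.C0, mul_nonneg (mul_nonneg h0 h.C0) (sub_nonneg.2 hC)]
      linarith
    · positivity
  U0 w := by have := h.be0 w; positivity
  U2 w := by
    have := hb w
    nlinarith
  sym x y := by
    unfold gX
    rw [h.symm]
  bd x y := h.entL hE x.2 y.2
  ward x := by
    have h1 := h.sum_X s (fun y => ‖P.G s x y‖ ^ 2)
    unfold gX
    rw [h1, h.wardX]
    have h2 := h.t4_io_le hE x.2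
    have hC := h.C1
    nlinarith
  wardf x := by
    have h1 := h.row s hE x x.2
    have hC := h.C1
    have h2 : ∑ y : ↥X, e y * ‖P.gX X s x y‖ ^ 2 ≤ C := by
      rw [← Finset.sum_coe_sort X (fun y => e y * P.S s y x)] at h1
      refine le_trans (Finset.sum_le_sum fun y _ => le_of_eq ?_) h1
      unfold gX S
      rw [h.symm]
    nlinarith
  wardU x := by
    have h1 := h.wardX s x
    have h2 := h.t4_io_le hE x.2
    have hC := h.C1
    have hC0 := h.C0
    have h3 : ∑ w : ↥N, (3 * be w) ^ 2 * ‖P.gX X s x (eN h.NX w)‖ ^ 2 ≤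
        ∑ w : ↥N, (72 * C) * (P.eta s w * ‖P.G s x w‖ ^ 2) := by
      refine Finset.sum_le_sum fun w _ => ?_
      have h4 := h.bee w
      have h5 := h.etaLo s w
      have h6 : be w ^ 2 ≤ C * (8 * P.eta s w) := h4.trans
        (mul_le_mul_of_nonneg_left (by linarith) hC0)
      have h7 : 0 ≤ ‖P.G s x w‖ ^ 2 := sq_nonneg _
      have h8 : P.gX X s x (eN h.NX w) = P.G s x w := rfl
      rw [h8]
      nlinarith [mul_le_mul_of_nonneg_right h6 h7]
    refine h3.trans ?_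
    rw [← Finset.mul_sum, Finset.sum_coe_sort N (fun w => P.eta s w * ‖P.G s x w‖ ^ 2)]
    have h9 : ∑ w ∈ N, P.eta s w * ‖P.G s x w‖ ^ 2 ≤ P.io s x := by
      rw [← h1]
      exact Finset.sum_le_univ_sum_of_nonneg fun w => mul_nonneg (h.eta0 s w) (sq_nonneg _)
    nlinarith [mul_le_mul_of_nonneg_left (h9.trans h2) (by positivity : 0 ≤ 72 * C)]
  op hh := by
    have hC := h.C1
    have hC0 := h.C0
    -- the test vector
    set u : T → ℂ := fun w => if hw : w ∈ N then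
      (((3 * be w) ^ 2 : ℝ) : ℂ) * hh ⟨w, hw⟩ / (√(P.eta s w) : ℂ) else 0 with hu
    have h1 := (h.diss s).wop (w := fun x => P.eta s x) (fun x => h.eta0 s x)
      (fun x => le_of_eq rfl) u
    have h2 : ∀ y : T, ∑ z, rsc P.H (P.bs s) y z * ((√(P.eta s z) : ℂ) * u z) =
        ∑ w : ↥N, (((3 * be w) ^ 2 : ℝ) : ℂ) * (hh w * P.G s w y) := by
      intro y
      have h3 : ∀ z : T, rsc P.H (P.bs s) y z * ((√(P.eta s z) : ℂ) * u z) =
          if hw : z ∈ N then (((3 * be z) ^ 2 : ℝ) : ℂ) * (hh ⟨z, hw⟩ * P.G s z y) else 0 := by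
        intro z
        by_cases hz : z ∈ N
        · have h4 : 0 < √(P.eta s z) := Real.sqrt_pos.2 (h.etaX' s (h.NX hz))
          have h5 : (√(P.eta s z) : ℂ) ≠ 0 := by exact_mod_cast h4.ne'
          simp only [hu, hz, dif_pos]
          have h6 : P.G s z y = rsc P.H (P.bs s) y z := by rw [h.symm]; rfl
          rw [h6]
          field_simp
        · simp [hu, hz]
      simp only [h3]
      rw [← Finset.sum_subset (Finset.subset_univ N) (fun z _ hz => by simp [hz]),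
        ← Finset.sum_coe_sort N]
      refine Finset.sum_congr rfl fun w _ => ?_
      simp
    simp only [h2] at h1
    have h7 : ∑ y : ↥X, P.eta s y * ‖∑ w : ↥N, (((3 * be w) ^ 2 : ℝ) : ℂ) *
        (hh w * P.gX X s (eN h.NX w) y)‖ ^ 2 =
        ∑ y, P.eta s y * ‖∑ w : ↥N, (((3 * be w) ^ 2 : ℝ) : ℂ) * (hh w * P.G s w y)‖ ^ 2 :=
      h.sum_X s (fun y => ‖∑ w : ↥N, (((3 * be w) ^ 2 : ℝ) : ℂ) * (hh w * P.G s w y)‖ ^ 2)
    refine (le_of_eq h7).trans (h1.trans ?_)
    rw [← Finset.sum_subset (Finset.subset_univ N) (fun z _ hz => by simp [hu, hz]),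
      ← Finset.sum_coe_sort N, Finset.mul_sum]
    refine Finset.sum_le_sum fun w _ => ?_
    have hw := w.2
    have h8 : u (w : T) = (((3 * be w) ^ 2 : ℝ) : ℂ) * hh w / (√(P.eta s w) : ℂ) := by
      simp only [hu, hw, dif_pos]
    have h9 : 0 < P.eta s w := h.etaX' s (h.NX hw)
    have h10 : ‖u (w : T)‖ ^ 2 = (3 * be w) ^ 4 * ‖hh w‖ ^ 2 / P.eta s w := by
      rw [h8, norm_div, norm_mul, Complex.norm_real, Complex.norm_real, div_pow, mul_pow,
        Real.norm_of_nonneg (Real.sqrt_nonneg _), Real.sq_sqrt h9.le,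
        Real.norm_of_nonneg (sq_nonneg _)]
      ring
    rw [h10, div_le_iff₀ h9]
    have h11 := h.bee w
    have h12 := h.etaLo s w
    have h13 : be w ^ 2 ≤ C * (8 * P.eta s w) := h11.trans
      (mul_le_mul_of_nonneg_left (by linarith) hC0)
    have h14 : (3 * be w) ^ 2 ≤ 144 * C ^ 2 * P.eta s w := by
      have : C ≤ C ^ 2 := by nlinarith
      nlinarith [mul_le_mul_of_nonneg_right this h9.le]
    have h15 : 0 ≤ (3 * be w) ^ 2 * ‖hh w‖ ^ 2 := by positivity
    calc (3 * be w) ^ 4 * ‖hh w‖ ^ 2 = (3 * be w) ^ 2 * ((3 * be w) ^ 2 * ‖hh w‖ ^ 2) := by ring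
      _ ≤ (144 * C ^ 2 * P.eta s w) * ((3 * be w) ^ 2 * ‖hh w‖ ^ 2) :=
          mul_le_mul_of_nonneg_right h14 h15
      _ = _ := by ring
  T x := by
    have h1 := hT x x.2
    refine le_trans (le_of_eq ?_) h1
    unfold T4.TT omY gX Tx
    rw [Finset.mul_sum]
    have h2 : ∑ y : ↥X, (if (y : T) ∈ Y then kk else 0) * ‖P.G s x y‖ ^ 4 =
        ∑ y ∈ X, (if y ∈ Y then kk else 0) * ‖P.G s x y‖ ^ 4 :=
      Finset.sum_coe_sort X (fun y => (if y ∈ Y then kk else 0) * ‖P.G s x y‖ ^ 4)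
    rw [h2, ← Finset.sum_subset hYX (fun y _ hy => by simp [hy])]
    refine Finset.sum_congr rfl fun y hy => ?_
    simp [hy]
  tau1 := ht1
  I := hI
  ep0 := hep
  D w := by
    refine (hD w w.2).trans (le_of_eq ?_)
    ring

theorem TT_eq {Y : Finset T} (hYX : Y ⊆ X) (kk : ℝ) (s : T → Option D) (x : ↥X) :
    T4.TT (omY Y kk) (P.gX X s) x = kk * P.Tx Y s x := by
  unfold T4.TT omY gX Tx
  rw [Finset.mul_sum]
  have h2 : ∑ y : ↥X, (if (y : T) ∈ Y then kk else 0) * ‖P.G s x y‖ ^ 4 =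
      ∑ y ∈ X, (if y ∈ Y then kk else 0) * ‖P.G s x y‖ ^ 4 :=
    Finset.sum_coe_sort X (fun y => (if y ∈ Y then kk else 0) * ‖P.G s x y‖ ^ 4)
  rw [h2, ← Finset.sum_subset hYX (fun y _ hy => by simp [hy])]
  refine Finset.sum_congr rfl fun y hy => ?_
  simp [hy]

theorem TTr_eq {Y : Finset T} (hYX : Y ⊆ X) (kk : ℝ) (s : T → Option D) (x : ↥X) (w : ↥N)
    (b : Option D) :
    T4.TTr (omY Y kk) (P.gX X s) (eN h.NX) (fun (w : ↥N) a => P.u s w a) x w b =
      kk * P.Tx Y (update s (w : T) b) x := by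
  rw [← h.TT_eq hYX kk (update s (w : T) b) x]
  unfold T4.TTr T4.TT
  refine Finset.sum_congr rfl fun y _ => ?_
  unfold gX
  rw [h.rank1]
  rfl

theorem G_off (s : T → Option D) {w : T} (hw : w ∉ N) (b : Option D) :
    P.G (update s w b) = P.G s := by
  unfold G
  congr 1
  funext x
  have h1 := bs_up P s w b x
  have h2 : P.nu s w b = 0 := by
    unfold nu
    rw [h.inc_off hw, h.inc_off hw, sub_zero]
  rw [h2] at h1
  simp only [ite_self] at h1
  exact sub_eq_zero.1 h1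

theorem Tx_off {Y : Finset T} (s : T → Option D) {w : T} (hw : w ∉ N) (b : Option D) (x : T) :
    P.Tx Y (update s w b) x = P.Tx Y s x := by
  unfold Tx
  rw [h.G_off s hw b]

/-- **T4 component**: `CompAt` for the fourth power functional at a configuration where the a priori
bounds hold -/
theorem compT {Y : Finset T} {kk : ℝ} (hk : 0 < kk)
    (hkY : ∀ y ∈ Y, kk ≤ C * P.eta nil y) {kb : ℝ}
    (hb : ∀ w, 9 * be w ^ 2 ≤ kb) {s : T → Option D} (hE : P.Ent X 1 s)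
    (hYX : Y ⊆ X) {tau : ℝ}
    (hT : ∀ x ∈ X, kk * P.Tx Y s x ≤ tau) (ht1 : tau ≤ 1) {iot ep : ℝ}
    (hI : ∀ x : ↥X, T4.II (omY Y kk) (fun w : ↥N => 3 * be w) (P.gX X s) (eN h.NX) x ≤ iot)
    (hep : 0 ≤ ep)
    (hD : ∀ w ∈ N, ‖∑ d, (P.g.P w d : ℂ) * P.u s w (some d) - P.u s w none‖ ≤
      ep * (9 * be w ^ 2))
    {t de : ℝ} (ht : 0 < t) (hkt : kk * t ≤ 1) (hd : 0 ≤ de) (hd1 : de ≤ 1) {q : ℕ} (hq : 1 ≤ q)
    (h1 : tau ^ 3 * ep ^ 4 ≤ de * (kk * t) ^ 4) (h2 : iot ≤ de * (kk * t))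
    (h3 : tau * iot ≤ de * (kk * t) ^ 2) (h4 : (2 * Lm) ^ 2 * (kb * tau) ≤ de * (kk * t))
    {B dl : ℝ} (hB : T4.KT q (144 * C ^ 2) * (2 * Lm) ^ 2 * (∑ w ∈ N, 9 * be w ^ 2) *
      (de ^ q / (kk * t) ^ 2) ≤ B) (hdl : 0 < dl) (hdl1 : dl ≤ 1)
    (hbd : KP (2 * q) * B ≤ dl ^ (2 * (2 * q))) (hs : P.GamT X Y e t (2 * q) s ≤ 1) :
    CompAt P.g.P (P.GamT X Y e t (2 * q)) s (KP (2 * q)) (KP (2 * q) * (B + B)) dl := by
  classical
  have H := h.T4hyp hk.le hkY hb hE hYX hT ht1 hI hep hD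
  set om : ↥X → ℝ := omY Y kk with hom
  set U : ↥N → ℝ := fun w => 3 * be w with hU
  set Dl : ↥N → ℂ := fun w : ↥N => ∑ d, (P.g.P w d : ℂ) * P.u s w (some d) - P.u s w none with hDl
  have hu : ∀ (w : ↥N) (a : Option D), ‖P.u s w a‖ ≤ U w := fun w a => h.u_le hE w a
  have hkt0 : 0 < kk * t := mul_pos hk ht
  have hU0 : ∀ w, 0 ≤ U w := H.U0
  have hTr : ∀ (x : ↥X) (w : ↥N) (b : Option D),
      P.Tx Y (update s (w : T) b) x - P.Tx Y s x =
      (T4.TTr om (P.gX X s) (eN h.NX) (fun (w : ↥N) a => P.u s w a) x w b -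
        T4.TT om (P.gX X s) x) / kk := by
    intro x w b
    rw [h.TTr_eq hYX, h.TT_eq hYX]
    field_simp
  have hsum : ∑ x : ↥X, e x * ((T4.DD om U (P.gX X s) (eN h.NX) Dl x / (kk * t)) ^ (4 * q) +
      (T4.QQ om U (P.gX X s) (eN h.NX) x / (kk * t) ^ 2) ^ (2 * q)) ≤ B := by
    refine (H.comp hkt0 hkt hd hd1 hq h1 h2 h3 h4).trans (le_trans (le_of_eq ?_) hB)
    rw [Finset.sum_coe_sort N (fun w => (3 * be w) ^ 2)]
    congr 2
    refine Finset.sum_congr rfl fun w _ => ?_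
    ring
  have hDD0 : ∀ x : ↥X, 0 ≤ (T4.DD om U (P.gX X s) (eN h.NX) Dl x / (kk * t)) ^ (4 * q) := fun x => by
    rw [show 4 * q = 2 * (2 * q) by ring, pow_mul]; positivity
  have hQQ0 : ∀ x : ↥X, 0 ≤ (T4.QQ om U (P.gX X s) (eN h.NX) x / (kk * t) ^ 2) ^ (2 * q) := fun x => by
    rw [pow_mul]; positivity
  refine comp_pow (2 * q) (by omega) P.g.P h.dig.P0 h.dig.P1 (fun x : ↥X => e x)
    (fun x => (h.e0 x x.2).le) (fun x s => ((P.Tx Y s x - P.Tx Y nil x : ℝ) : ℂ)) ht s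
    (fun x w => if hw : w ∈ N then T4.dd om U (P.gX X s) (eN h.NX) x ⟨w, hw⟩ / kk else 0)
    ?_ (fun x => T4.DD om U (P.gX X s) (eN h.NX) Dl x / kk)
    (fun x => T4.QQ om U (P.gX X s) (eN h.NX) x / kk ^ 2) ?_ ?_ (bD := B) (bQ := B) ?_ ?_ hdl hdl1
    hbd hs
  · intro x w b
    have e1 : ((P.Tx Y (update s w b) x - P.Tx Y nil x : ℝ) : ℂ) -
        ((P.Tx Y s x - P.Tx Y nil x : ℝ) : ℂ) =
        ((P.Tx Y (update s w b) x - P.Tx Y s x : ℝ) : ℂ) := by
      push_cast; ring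
    simp only [e1, Complex.norm_real, Real.norm_eq_abs]
    by_cases hw : w ∈ N
    · simp only [hw, dif_pos]
      rw [hTr x ⟨w, hw⟩ b, abs_div, abs_of_pos hk]
      exact div_le_div_of_nonneg_right (T4.jump_le H.om0 hu x ⟨w, hw⟩ b) hk.le
    · simp only [hw, dif_neg, not_false_eq_true]
      rw [h.Tx_off s hw b x, sub_self, abs_zero]
  · intro x
    have e1 : ∑ w, (∑ b, (P.g.P w b : ℂ) * ((P.Tx Y (update s w (some b)) x - P.Tx Y nil x : ℝ) : ℂ) -
        ((P.Tx Y (update s w none) x - P.Tx Y nil x : ℝ) : ℂ)) =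
        (((∑ w : ↥N, (∑ b, P.g.P w b * T4.TTr om (P.gX X s) (eN h.NX)
          (fun (w : ↥N) a => P.u s w a) x w (some b) -
          T4.TTr om (P.gX X s) (eN h.NX) (fun (w : ↥N) a => P.u s w a) x w none)) / kk : ℝ) : ℂ) := by
      have e2 : ∀ w : T, (∑ b, (P.g.P w b : ℂ) *
          ((P.Tx Y (update s w (some b)) x - P.Tx Y nil x : ℝ) : ℂ) -
          ((P.Tx Y (update s w none) x - P.Tx Y nil x : ℝ) : ℂ)) =
          ((∑ b, P.g.P w b * P.Tx Y (update s w (some b)) x - P.Tx Y (update s w none) x : ℝ) : ℂ) := by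
        intro w
        push_cast
        simp only [mul_sub, Finset.sum_sub_distrib]
        rw [← Finset.sum_mul]
        have e3 : ∑ b, (P.g.P w b : ℂ) = 1 := by exact_mod_cast h.dig.P1 w
        rw [e3]
        ring
      rw [Finset.sum_congr rfl fun w _ => e2 w, ← Complex.ofReal_sum]
      congr 1
      rw [← Finset.sum_subset (Finset.subset_univ N) (fun w _ hw => by
        simp only [h.Tx_off s hw _ x]
        rw [← Finset.sum_mul, h.dig.P1, one_mul, sub_self]), ← Finset.sum_coe_sort N,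
        Finset.sum_div]
      refine Finset.sum_congr rfl fun w _ => ?_
      have e4 : ∀ b : Option D, T4.TTr om (P.gX X s) (eN h.NX) (fun (w : ↥N) a => P.u s w a) x w b =
          kk * P.Tx Y (update s (w : T) b) x := fun b => h.TTr_eq hYX kk s x w b
      have e5 : (∑ b, P.g.P w b * T4.TTr om (P.gX X s) (eN h.NX) (fun (w : ↥N) a => P.u s w a)
          x w (some b)) = kk * ∑ b, P.g.P w b * P.Tx Y (update s (w : T) (some b)) x := by
        rw [Finset.mul_sum]
        refine Finset.sum_congr rfl fun b _ => ?_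
        rw [e4 (some b)]
        ring
      rw [e5, e4 none, ← mul_sub, mul_div_cancel_left₀ _ hk.ne']
    rw [e1, Complex.norm_real, Real.norm_eq_abs, abs_div, abs_of_pos hk]
    refine div_le_div_of_nonneg_right ?_ hk.le
    exact T4.drift_le (W := ↥N) (pr := fun (w : ↥N) a => P.g.P w a)
      (u := fun (w : ↥N) a => P.u s w a) (U := U) H.om0 (fun w a => h.dig.P0 w a)
      (fun w => h.dig.P1 w) hu x
  · intro x
    have e1 := T4.dd_QQ (om := om) (U := U) (G := P.gX X s) (e := eN h.NX) H.om0 x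
    have e2 : ∑ w, (if hw : w ∈ N then T4.dd om U (P.gX X s) (eN h.NX) x ⟨w, hw⟩ / kk else 0) ^ 2 =
        (∑ w : ↥N, T4.dd om U (P.gX X s) (eN h.NX) x w ^ 2) / kk ^ 2 := by
      rw [← Finset.sum_subset (Finset.subset_univ N) (fun w _ hw => by simp [hw]),
        ← Finset.sum_coe_sort N, Finset.sum_div]
      refine Finset.sum_congr rfl fun w _ => ?_
      simp only [w.2, dif_pos, div_pow]
    simp only [e2]
    exact div_le_div_of_nonneg_right e1 (by positivity)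
  · refine le_trans (Finset.sum_le_sum fun x _ => ?_) hsum
    refine mul_le_mul_of_nonneg_left ?_ (h.e0 x x.2).le
    rw [div_div, show 2 * (2 * q) = 4 * q by ring]
    linarith [hQQ0 x]
  · refine le_trans (Finset.sum_le_sum fun x _ => ?_) hsum
    refine mul_le_mul_of_nonneg_left ?_ (h.e0 x x.2).le
    rw [div_div, ← mul_pow]
    linarith [hDD0 x]

end Stp.Ok

end Pool.Agent.ANS
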