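import Mathlib

/-! # ANS/T4 Alg: algebra of the fourth power sums (AND project, MP_28b024_mp)

For a row `p : X → ℂ` (think `p y = G x y`) and a perturbation `r : X → ℂ`
(`r y = u G x w G w y`) with weights `ω ≥ 0`:

* `four_lin`: `| |p-r|⁴ - |p|⁴ + 4 |p|² Re(p̄ r) | ≤ 8 |p|² |r|² + 3 |r|⁴`.
* `four_abs`: `| |p-r|⁴ - |p|⁴ | ≤ 15 (|p|³ |r| + |r|⁴)`.
* `hold4`: `(∑ ω |p|³ |v|)⁴ ≤ (∑ ω |p|⁴)³ (∑ ω |v|⁴)`.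
* `hold2`: `(∑ ω |p|³ |v|)² ≤ (∑ ω |p|⁴) (∑ ω |p|² |v|²)`.
-/

set_option autoImplicit false

open Finset

noncomputable section

namespace Pool.Agent.ANS.T4

theorem normSq_sub' (p r : ℂ) : ‖p - r‖ ^ 2 = ‖p‖ ^ 2 - 2 * (star p * r).re + ‖r‖ ^ 2 := by
  have h1 : ∀ z : ℂ, ‖z‖ ^ 2 = z.re ^ 2 + z.im ^ 2 := fun z => by
    rw [← Complex.normSq_eq_norm_sq, Complex.normSq_apply]; ring
  rw [h1, h1, h1]
  simp only [Complex.sub_re, Complex.sub_im, Complex.mul_re, Complex.star_def, Complex.conj_re,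
    Complex.conj_im]
  ring

theorem re_le (p r : ℂ) : |(star p * r).re| ≤ ‖p‖ * ‖r‖ := by
  refine (Complex.abs_re_le_norm _).trans ?_
  rw [norm_mul, norm_star]

theorem four_eq (p r : ℂ) : ‖p - r‖ ^ 4 - ‖p‖ ^ 4 + 4 * ‖p‖ ^ 2 * (star p * r).re =
    2 * ‖p‖ ^ 2 * ‖r‖ ^ 2 + 4 * (star p * r).re ^ 2 - 4 * (star p * r).re * ‖r‖ ^ 2 +
      ‖r‖ ^ 4 := by
  have h : ‖p - r‖ ^ 4 = (‖p - r‖ ^ 2) ^ 2 := by ring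
  rw [h, normSq_sub']
  ring

theorem four_lin (p r : ℂ) :
    |‖p - r‖ ^ 4 - ‖p‖ ^ 4 + 4 * ‖p‖ ^ 2 * (star p * r).re| ≤
      8 * (‖p‖ ^ 2 * ‖r‖ ^ 2) + 3 * ‖r‖ ^ 4 := by
  rw [four_eq]
  have h := re_le p r
  set t := (star p * r).re
  have hp := norm_nonneg p
  have hr := norm_nonneg r
  have h1 : t ^ 2 ≤ ‖p‖ ^ 2 * ‖r‖ ^ 2 := by
    rw [← mul_pow, ← sq_abs]
    exact pow_le_pow_left₀ (abs_nonneg _) h 2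
  have h2 := abs_le.1 h
  have h3 : ‖p‖ * ‖r‖ * ‖r‖ ^ 2 ≤ (‖p‖ ^ 2 * ‖r‖ ^ 2 + ‖r‖ ^ 4) / 2 := by
    nlinarith [mul_nonneg (sq_nonneg ‖r‖) (sq_nonneg (‖p‖ - ‖r‖))]
  have h4 : t * ‖r‖ ^ 2 ≤ ‖p‖ * ‖r‖ * ‖r‖ ^ 2 := mul_le_mul_of_nonneg_right h2.2 (sq_nonneg _)
  have h5 : -(‖p‖ * ‖r‖) * ‖r‖ ^ 2 ≤ t * ‖r‖ ^ 2 := mul_le_mul_of_nonneg_right h2.1 (sq_nonneg _)
  rw [abs_le]
  constructor
  · nlinarith [sq_nonneg t, mul_nonneg (sq_nonneg ‖p‖) (sq_nonneg ‖r‖), sq_nonneg (‖r‖ ^ 2)]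
  · nlinarith [sq_nonneg t, mul_nonneg (sq_nonneg ‖p‖) (sq_nonneg ‖r‖), sq_nonneg (‖r‖ ^ 2)]

theorem four_abs (p r : ℂ) :
    |‖p - r‖ ^ 4 - ‖p‖ ^ 4| ≤ 15 * (‖p‖ ^ 3 * ‖r‖ + ‖r‖ ^ 4) := by
  have h0 := four_lin p r
  have h := re_le p r
  set t := (star p * r).re
  have hp := norm_nonneg p
  have hr := norm_nonneg r
  have h1 : |4 * ‖p‖ ^ 2 * t| ≤ 4 * (‖p‖ ^ 3 * ‖r‖) := by
    rw [abs_mul, abs_of_nonneg (by positivity : (0 : ℝ) ≤ 4 * ‖p‖ ^ 2)]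
    nlinarith [mul_le_mul_of_nonneg_left h (by positivity : (0 : ℝ) ≤ 4 * ‖p‖ ^ 2)]
  have h2 : ‖p‖ ^ 2 * ‖r‖ ^ 2 ≤ ‖p‖ ^ 3 * ‖r‖ + ‖r‖ ^ 4 := by
    rcases le_total ‖r‖ ‖p‖ with h3 | h3
    · have : ‖p‖ ^ 2 * ‖r‖ ^ 2 ≤ ‖p‖ ^ 3 * ‖r‖ := by
        nlinarith [mul_nonneg (mul_nonneg (sq_nonneg ‖p‖) hr) (sub_nonneg.2 h3)]
      have : 0 ≤ ‖r‖ ^ 4 := by positivity
      linarith
    · have : ‖p‖ ^ 2 * ‖r‖ ^ 2 ≤ ‖r‖ ^ 4 := by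
        have : ‖p‖ ^ 2 ≤ ‖r‖ ^ 2 := pow_le_pow_left₀ hp h3 2
        nlinarith [mul_le_mul_of_nonneg_right this (sq_nonneg ‖r‖)]
      have : 0 ≤ ‖p‖ ^ 3 * ‖r‖ := by positivity
      linarith
  have h3 : 0 ≤ ‖p‖ ^ 3 * ‖r‖ := by positivity
  have h4 : 0 ≤ ‖r‖ ^ 4 := by positivity
  have h5 : |‖p - r‖ ^ 4 - ‖p‖ ^ 4| ≤
      |‖p - r‖ ^ 4 - ‖p‖ ^ 4 + 4 * ‖p‖ ^ 2 * t| + |4 * ‖p‖ ^ 2 * t| := by
    have := abs_sub_abs_le_abs_sub (‖p - r‖ ^ 4 - ‖p‖ ^ 4) (-(4 * ‖p‖ ^ 2 * t))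
    rw [sub_neg_eq_add, abs_neg] at this
    linarith
  linarith

variable {X : Type} [Fintype X]

theorem hold2 (om p v : X → ℝ) (hom : ∀ y, 0 ≤ om y) :
    (∑ y, om y * (p y ^ 3 * v y)) ^ 2 ≤
      (∑ y, om y * p y ^ 4) * ∑ y, om y * (p y ^ 2 * v y ^ 2) := by
  have h := Finset.sum_mul_sq_le_sq_mul_sq Finset.univ
    (fun y => Real.sqrt (om y) * p y ^ 2) (fun y => Real.sqrt (om y) * (p y * v y))
  have e1 : ∀ y, (Real.sqrt (om y) * p y ^ 2) * (Real.sqrt (om y) * (p y * v y)) =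
      om y * (p y ^ 3 * v y) := fun y => by
    have := Real.mul_self_sqrt (hom y)
    calc _ = (Real.sqrt (om y) * Real.sqrt (om y)) * (p y ^ 3 * v y) := by ring
      _ = _ := by rw [this]
  have e2 : ∀ y, (Real.sqrt (om y) * p y ^ 2) ^ 2 = om y * p y ^ 4 := fun y => by
    rw [mul_pow, Real.sq_sqrt (hom y)]; ring
  have e3 : ∀ y, (Real.sqrt (om y) * (p y * v y)) ^ 2 = om y * (p y ^ 2 * v y ^ 2) := fun y => by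
    rw [mul_pow, Real.sq_sqrt (hom y)]; ring
  simp only [e1, e2, e3] at h
  exact h

theorem hold22 (om p v : X → ℝ) (hom : ∀ y, 0 ≤ om y) :
    (∑ y, om y * (p y ^ 2 * v y ^ 2)) ^ 2 ≤
      (∑ y, om y * p y ^ 4) * ∑ y, om y * v y ^ 4 := by
  have h := Finset.sum_mul_sq_le_sq_mul_sq Finset.univ
    (fun y => Real.sqrt (om y) * p y ^ 2) (fun y => Real.sqrt (om y) * v y ^ 2)
  have e1 : ∀ y, (Real.sqrt (om y) * p y ^ 2) * (Real.sqrt (om y) * v y ^ 2) =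
      om y * (p y ^ 2 * v y ^ 2) := fun y => by
    have := Real.mul_self_sqrt (hom y)
    calc _ = (Real.sqrt (om y) * Real.sqrt (om y)) * (p y ^ 2 * v y ^ 2) := by ring
      _ = _ := by rw [this]
  have e2 : ∀ y, (Real.sqrt (om y) * p y ^ 2) ^ 2 = om y * p y ^ 4 := fun y => by
    rw [mul_pow, Real.sq_sqrt (hom y)]; ring
  have e3 : ∀ y, (Real.sqrt (om y) * v y ^ 2) ^ 2 = om y * v y ^ 4 := fun y => by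
    rw [mul_pow, Real.sq_sqrt (hom y)]; ring
  simp only [e1, e2, e3] at h
  exact h

theorem hold4 (om p v : X → ℝ) (hom : ∀ y, 0 ≤ om y) :
    (∑ y, om y * (p y ^ 3 * v y)) ^ 4 ≤
      (∑ y, om y * p y ^ 4) ^ 3 * ∑ y, om y * v y ^ 4 := by
  have h1 := hold2 om p v hom
  have h2 := hold22 om p v hom
  have hT : 0 ≤ ∑ y, om y * p y ^ 4 := Finset.sum_nonneg fun y _ =>
    mul_nonneg (hom y) (by positivity)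
  calc (∑ y, om y * (p y ^ 3 * v y)) ^ 4 = ((∑ y, om y * (p y ^ 3 * v y)) ^ 2) ^ 2 := by ring
    _ ≤ ((∑ y, om y * p y ^ 4) * ∑ y, om y * (p y ^ 2 * v y ^ 2)) ^ 2 :=
        pow_le_pow_left₀ (sq_nonneg _) h1 2
    _ = (∑ y, om y * p y ^ 4) ^ 2 * (∑ y, om y * (p y ^ 2 * v y ^ 2)) ^ 2 := by ring
    _ ≤ (∑ y, om y * p y ^ 4) ^ 2 * ((∑ y, om y * p y ^ 4) * ∑ y, om y * v y ^ 4) :=
        mul_le_mul_of_nonneg_left h2 (sq_nonneg _)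
    _ = _ := by ring

end Pool.Agent.ANS.T4
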