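import Pool.Agent.ANS.T4.Drift

/-! # ANS/T4 Comp: the component estimate for the fourth power sums (AND project)

`Hyp`: the bounds available at one configuration.  `DD x` bounds the drift of `T_x`, `QQ x` its
quadratic variation (`drift_DD`, `qv_QQ`).  `comp`: the weighted sum over all `x` of
`(DD x / t)^(4q) + (QQ x / t²)^(2q)` is at most `KT q C * Lm² * (∑_w U_w²) * δ^q / t²`:
the count is by the noise sites, not by the volume.
-/

set_option autoImplicit false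

open Finset

noncomputable section

namespace Pool.Agent.ANS.T4

variable {X W A : Type} [Fintype X] [Fintype W] [Fintype A]

/-- the bounds available at one configuration.  `om` weights of the fourth power sums, `eta` the
absorptions (zero allowed), `fx` the counting weights, `U w` bound of the amplitudes `‖u w a‖`,
`Dl w = ∑_a pr u(some a) - u(none)` the drift amplitudes, `Lm` a (crude) bound of the entries, which
may be a negative power of `κ`. -/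
structure Hyp (om eta fx : X → ℝ) (U : W → ℝ) (G : X → X → ℂ) (e : W → X) (Dl : W → ℂ)
    (C Lm kap tau iot ep : ℝ) : Prop where
  C1 : 1 ≤ C
  Lm1 : 1 ≤ Lm
  eta0 : ∀ y, 0 ≤ eta y
  fx0 : ∀ y, 0 ≤ fx y
  om0 : ∀ y, 0 ≤ om y
  om1 : ∀ y, om y ≤ C * eta y
  U0 : ∀ w, 0 ≤ U w
  U2 : ∀ w, U w ^ 2 ≤ kap
  sym : ∀ x y, ‖G x y‖ = ‖G y x‖
  bd : ∀ x y, ‖G x y‖ ≤ Lm
  ward : ∀ x, ∑ y, eta y * ‖G x y‖ ^ 2 ≤ C
  wardf : ∀ x, ∑ y, fx y * ‖G x y‖ ^ 2 ≤ C
  wardU : ∀ x, ∑ w, U w ^ 2 * ‖G x (e w)‖ ^ 2 ≤ C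
  op : ∀ h : W → ℂ, ∑ y, eta y * ‖∑ w, (U w ^ 2 : ℝ) * (h w * G (e w) y)‖ ^ 2 ≤
    C * ∑ w, U w ^ 2 * ‖h w‖ ^ 2
  T : ∀ x, TT om G x ≤ tau
  tau1 : tau ≤ 1
  I : ∀ x, II om U G e x ≤ iot
  ep0 : 0 ≤ ep
  D : ∀ w, ‖Dl w‖ ≤ ep * U w ^ 2

/-- mass of the row of `x` on the noise sites -/
def sg (U : W → ℝ) (G : X → X → ℂ) (e : W → X) (x : X) : ℝ :=
  ∑ w, U w ^ 2 * ‖G x (e w)‖ ^ 2

/-- the linear drift term -/
def RR (om : X → ℝ) (G : X → X → ℂ) (e : W → X) (Dl : W → ℂ) (x : X) : ℝ :=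
  ∑ y, om y * (‖G x y‖ ^ 3 * ‖vv G e Dl x y‖)

/-- bound of the drift -/
def DD (om : X → ℝ) (U : W → ℝ) (G : X → X → ℂ) (e : W → X) (Dl : W → ℂ) (x : X) : ℝ :=
  4 * RR om G e Dl x + 16 * II om U G e x + 6 * EE om U G e x

/-- bound of one jump -/
def dd (om : X → ℝ) (U : W → ℝ) (G : X → X → ℂ) (e : W → X) (x : X) (w : W) : ℝ :=
  15 * (U w * (∑ y, om y * (‖G x y‖ ^ 3 * (‖G x (e w)‖ * ‖G (e w) y‖))) +
          ∑ y, om y * (U w ^ 4 * (‖G x (e w)‖ ^ 4 * ‖G (e w) y‖ ^ 4)))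

/-- bound of the quadratic variation -/
def QQ (om : X → ℝ) (U : W → ℝ) (G : X → X → ℂ) (e : W → X) (x : X) : ℝ :=
  450 * (TT om G x * II om U G e x + EE om U G e x ^ 2)

/-- the constant -/
def KT (q : ℕ) (C : ℝ) : ℝ :=
  (3 ^ (4 * q) * (256 ^ q * C ^ (5 * q) + 16 ^ (4 * q) * C ^ 6 + (6 * C ^ 5) ^ (4 * q)) +
    2 ^ (2 * q) * (450 ^ (2 * q) * C ^ 6 + (450 * C ^ 10) ^ (2 * q))) * C

section basic

variable {om eta fx : X → ℝ} {U : W → ℝ} {G : X → X → ℂ} {e : W → X} {Dl : W → ℂ}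
  {C Lm kap tau iot ep : ℝ}

theorem TT_nonneg (hom : ∀ y, 0 ≤ om y) (x : X) : 0 ≤ TT om G x :=
  Finset.sum_nonneg fun y _ => mul_nonneg (hom y) (by positivity)

theorem II_nonneg (hom : ∀ y, 0 ≤ om y) (x : X) : 0 ≤ II om U G e x :=
  Finset.sum_nonneg fun w _ => Finset.sum_nonneg fun y _ => mul_nonneg (hom y) (by positivity)

theorem EE_nonneg (hom : ∀ y, 0 ≤ om y) (x : X) : 0 ≤ EE om U G e x :=
  Finset.sum_nonneg fun w _ => Finset.sum_nonneg fun y _ => mul_nonneg (hom y) (by positivity)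

theorem RR_nonneg (hom : ∀ y, 0 ≤ om y) (x : X) : 0 ≤ RR om G e Dl x :=
  Finset.sum_nonneg fun y _ => mul_nonneg (hom y) (by positivity)

omit [Fintype X] in
theorem sg_nonneg (x : X) : 0 ≤ sg U G e x :=
  Finset.sum_nonneg fun w _ => by positivity

theorem dd_nonneg (hom : ∀ y, 0 ≤ om y) (hU0 : ∀ w, 0 ≤ U w) (x : X) (w : W) :
    0 ≤ dd om U G e x w := by
  have h1 : 0 ≤ ∑ y, om y * (‖G x y‖ ^ 3 * (‖G x (e w)‖ * ‖G (e w) y‖)) :=
    Finset.sum_nonneg fun y _ => mul_nonneg (hom y) (by positivity)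
  have h2 : 0 ≤ ∑ y, om y * (U w ^ 4 * (‖G x (e w)‖ ^ 4 * ‖G (e w) y‖ ^ 4)) :=
    Finset.sum_nonneg fun y _ => mul_nonneg (hom y) (by positivity)
  have h3 := mul_nonneg (hU0 w) h1
  unfold dd
  linarith

omit [Fintype A] in
/-- one jump -/
theorem jump_le (hom : ∀ y, 0 ≤ om y) {u : W → Option A → ℂ} (hU : ∀ w a, ‖u w a‖ ≤ U w)
    (x : X) (w : W) (a : Option A) :
    |TTr om G e u x w a - TT om G x| ≤ dd om U G e x w := by
  unfold TTr TT dd
  rw [← Finset.sum_sub_distrib, Finset.mul_sum, ← Finset.sum_add_distrib, Finset.mul_sum]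
  refine (Finset.abs_sum_le_sum_abs _ _).trans (Finset.sum_le_sum fun y _ => ?_)
  rw [← mul_sub, abs_mul, abs_of_nonneg (hom y)]
  have h3 := four_abs (G x y) (u w a * (G x (e w) * G (e w) y))
  have h4 : ‖u w a * (G x (e w) * G (e w) y)‖ ≤ U w * (‖G x (e w)‖ * ‖G (e w) y‖) := by
    rw [norm_mul, norm_mul]
    exact mul_le_mul_of_nonneg_right (hU w _) (by positivity)
  have h5 : ‖u w a * (G x (e w) * G (e w) y)‖ ^ 4 ≤
      (U w * (‖G x (e w)‖ * ‖G (e w) y‖)) ^ 4 := pow_le_pow_left₀ (norm_nonneg _) h4 4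
  have h6 : ‖G x y‖ ^ 3 * ‖u w a * (G x (e w) * G (e w) y)‖ ≤
      ‖G x y‖ ^ 3 * (U w * (‖G x (e w)‖ * ‖G (e w) y‖)) :=
    mul_le_mul_of_nonneg_left h4 (by positivity)
  calc om y * |‖G x y - u w a * (G x (e w) * G (e w) y)‖ ^ 4 - ‖G x y‖ ^ 4|
      ≤ om y * (15 * (‖G x y‖ ^ 3 * (U w * (‖G x (e w)‖ * ‖G (e w) y‖)) +
        (U w * (‖G x (e w)‖ * ‖G (e w) y‖)) ^ 4)) :=
        mul_le_mul_of_nonneg_left (by linarith) (hom y)
    _ = _ := by ring

/-- the quadratic variation -/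
theorem dd_QQ (hom : ∀ y, 0 ≤ om y) (x : X) :
    ∑ w, dd om U G e x w ^ 2 ≤ QQ om U G e x := by
  have h1 : ∀ w, dd om U G e x w ^ 2 ≤
      450 * (TT om G x * ∑ y, om y * (U w ^ 2 * (‖G x y‖ ^ 2 * (‖G x (e w)‖ ^ 2 *
        ‖G (e w) y‖ ^ 2))) + (∑ y, om y * (U w ^ 4 * (‖G x (e w)‖ ^ 4 *
          ‖G (e w) y‖ ^ 4))) ^ 2) := by
    intro w
    have h7 := hold2 om (fun y => ‖G x y‖) (fun y => ‖G x (e w)‖ * ‖G (e w) y‖) hom
    unfold dd
    set S := ∑ y, om y * (‖G x y‖ ^ 3 * (‖G x (e w)‖ * ‖G (e w) y‖))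
    set E := ∑ y, om y * (U w ^ 4 * (‖G x (e w)‖ ^ 4 * ‖G (e w) y‖ ^ 4))
    have h9 : U w ^ 2 * S ^ 2 ≤ TT om G x * ∑ y, om y * (U w ^ 2 * (‖G x y‖ ^ 2 *
        (‖G x (e w)‖ ^ 2 * ‖G (e w) y‖ ^ 2))) := by
      refine (mul_le_mul_of_nonneg_left h7 (sq_nonneg (U w))).trans (le_of_eq ?_)
      unfold TT
      rw [← mul_assoc, mul_comm (U w ^ 2), mul_assoc, Finset.mul_sum]
      congr 1
      refine Finset.sum_congr rfl fun y _ => ?_
      ring
    nlinarith [sq_nonneg (U w * S - E)]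
  refine (Finset.sum_le_sum fun w _ => h1 w).trans ?_
  rw [← Finset.mul_sum, Finset.sum_add_distrib, ← Finset.mul_sum]
  unfold QQ
  refine mul_le_mul_of_nonneg_left (add_le_add (le_of_eq rfl) ?_) (by norm_num)
  unfold EE
  exact Finset.sum_sq_le_sq_sum_of_nonneg fun w _ => Finset.sum_nonneg fun y _ =>
    mul_nonneg (hom y) (by positivity)

end basic

namespace Hyp

variable {om eta fx : X → ℝ} {U : W → ℝ} {G : X → X → ℂ} {e : W → X} {Dl : W → ℂ}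
  {C Lm kap tau iot ep : ℝ} (h : Hyp om eta fx U G e Dl C Lm kap tau iot ep)

include h

theorem C0 : 0 < C := lt_of_lt_of_le one_pos h.C1

theorem sg_le (x : X) : sg U G e x ≤ C := h.wardU x

theorem sg_sum : ∑ x, fx x * sg U G e x ≤ C * ∑ w, U w ^ 2 := by
  unfold sg
  simp only [Finset.mul_sum]
  rw [Finset.sum_comm]
  refine Finset.sum_le_sum fun w _ => ?_
  have h1 := h.wardf (e w)
  calc ∑ x, fx x * (U w ^ 2 * ‖G x (e w)‖ ^ 2)
      = U w ^ 2 * ∑ x, fx x * ‖G (e w) x‖ ^ 2 := by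
        rw [Finset.mul_sum]
        refine Finset.sum_congr rfl fun x _ => ?_
        rw [h.sym x (e w)]; ring
    _ ≤ U w ^ 2 * C := mul_le_mul_of_nonneg_left h1 (sq_nonneg _)
    _ = C * U w ^ 2 := mul_comm _ _

/-- triangle sum against the mass -/
theorem I_sg (x : X) : II om U G e x ≤ C ^ 2 * Lm ^ 2 * sg U G e x := by
  unfold II sg
  rw [Finset.mul_sum]
  refine Finset.sum_le_sum fun w _ => ?_
  have hC := h.C0
  have h1 : ∑ y, om y * (U w ^ 2 * (‖G x y‖ ^ 2 * (‖G x (e w)‖ ^ 2 * ‖G (e w) y‖ ^ 2))) ≤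
      ∑ y, (C * Lm ^ 2 * (U w ^ 2 * ‖G x (e w)‖ ^ 2)) * (eta y * ‖G x y‖ ^ 2) := by
    refine Finset.sum_le_sum fun y _ => ?_
    have h2 : ‖G (e w) y‖ ^ 2 ≤ Lm ^ 2 := pow_le_pow_left₀ (norm_nonneg _) (h.bd _ _) 2
    have h3 := h.om1 y
    have h4 := h.om0 y
    have h5 := h.eta0 y
    calc om y * (U w ^ 2 * (‖G x y‖ ^ 2 * (‖G x (e w)‖ ^ 2 * ‖G (e w) y‖ ^ 2)))
        ≤ (C * eta y) * (U w ^ 2 * (‖G x y‖ ^ 2 * (‖G x (e w)‖ ^ 2 * Lm ^ 2))) := by
          refine mul_le_mul h3 ?_ (by positivity) (by positivity)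
          gcongr
      _ = _ := by ring
  refine h1.trans ?_
  rw [← Finset.mul_sum]
  have h6 := h.ward x
  calc C * Lm ^ 2 * (U w ^ 2 * ‖G x (e w)‖ ^ 2) * ∑ y, eta y * ‖G x y‖ ^ 2
      ≤ C * Lm ^ 2 * (U w ^ 2 * ‖G x (e w)‖ ^ 2) * C :=
        mul_le_mul_of_nonneg_left h6 (by positivity)
    _ = _ := by ring

theorem E_sg (x : X) : EE om U G e x ≤ Lm ^ 2 * kap * tau * sg U G e x := by
  unfold EE sg
  rw [Finset.mul_sum]
  refine Finset.sum_le_sum fun w _ => ?_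
  have hC := h.C0
  have hT := h.T (e w)
  have hk : 0 ≤ kap := le_trans (sq_nonneg _) (h.U2 w)
  have hT0 : 0 ≤ TT om G (e w) := TT_nonneg h.om0 _
  have h1 : ∑ y, om y * (U w ^ 4 * (‖G x (e w)‖ ^ 4 * ‖G (e w) y‖ ^ 4)) =
      U w ^ 2 * U w ^ 2 * (‖G x (e w)‖ ^ 2 * ‖G x (e w)‖ ^ 2) * TT om G (e w) := by
    unfold TT
    rw [Finset.mul_sum]
    refine Finset.sum_congr rfl fun y _ => ?_
    ring
  rw [h1]
  have h2 : ‖G x (e w)‖ ^ 2 ≤ Lm ^ 2 := pow_le_pow_left₀ (norm_nonneg _) (h.bd _ _) 2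
  calc U w ^ 2 * U w ^ 2 * (‖G x (e w)‖ ^ 2 * ‖G x (e w)‖ ^ 2) * TT om G (e w)
      ≤ U w ^ 2 * kap * (‖G x (e w)‖ ^ 2 * Lm ^ 2) * tau := by
        refine mul_le_mul ?_ hT hT0 (by positivity)
        refine mul_le_mul ?_ ?_ (by positivity) (by positivity)
        · exact mul_le_mul_of_nonneg_left (h.U2 w) (sq_nonneg _)
        · exact mul_le_mul_of_nonneg_left h2 (sq_nonneg _)
    _ = _ := by ring

theorem v_l2 (x : X) : ∑ y, eta y * ‖vv G e Dl x y‖ ^ 2 ≤ C * ep ^ 2 * sg U G e x := by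
  classical
  set hh : W → ℂ := fun w => (if U w = 0 then 0 else Dl w / (U w ^ 2 : ℝ)) * G x (e w) with hhh
  have h1 : ∀ w, ((U w ^ 2 : ℝ) : ℂ) * (if U w = 0 then 0 else Dl w / (U w ^ 2 : ℝ)) = Dl w := by
    intro w
    by_cases h0 : U w = 0
    · have h2 := h.D w
      rw [h0] at h2
      have h3 : Dl w = 0 := by
        rw [← norm_le_zero_iff]
        simpa using h2
      simp [h0, h3]
    · rw [if_neg h0]
      have : ((U w ^ 2 : ℝ) : ℂ) ≠ 0 := by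
        exact_mod_cast pow_ne_zero 2 h0
      field_simp
  have h2 : ∀ w, ‖(if U w = 0 then 0 else Dl w / (U w ^ 2 : ℝ) : ℂ)‖ ≤ ep := by
    intro w
    by_cases h0 : U w = 0
    · simp [h0, h.ep0]
    · rw [if_neg h0, norm_div]
      have h3 : 0 < U w ^ 2 := by positivity
      rw [Complex.norm_real, Real.norm_of_nonneg h3.le, div_le_iff₀ h3]
      exact h.D w
  have h3 := h.op hh
  have h4 : ∀ y, ∑ w, ((U w ^ 2 : ℝ) : ℂ) * (hh w * G (e w) y) = vv G e Dl x y := by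
    intro y
    unfold vv
    refine Finset.sum_congr rfl fun w _ => ?_
    rw [← h1 w]
    simp only [hhh]
    ring
  simp only [h4] at h3
  refine h3.trans ?_
  unfold sg
  rw [mul_assoc, Finset.mul_sum (a := ep ^ 2)]
  refine mul_le_mul_of_nonneg_left (Finset.sum_le_sum fun w _ => ?_) h.C0.le
  simp only [hhh, norm_mul, mul_pow]
  have h5 : ‖(if U w = 0 then 0 else Dl w / (U w ^ 2 : ℝ) : ℂ)‖ ^ 2 ≤ ep ^ 2 :=
    pow_le_pow_left₀ (norm_nonneg _) (h2 w) 2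
  calc U w ^ 2 * (‖(if U w = 0 then 0 else Dl w / (U w ^ 2 : ℝ) : ℂ)‖ ^ 2 * ‖G x (e w)‖ ^ 2)
      ≤ U w ^ 2 * (ep ^ 2 * ‖G x (e w)‖ ^ 2) := by gcongr
    _ = _ := by ring

theorem v_sup (x y : X) : ‖vv G e Dl x y‖ ≤ ep * C := by
  have h1 : ‖vv G e Dl x y‖ ≤ ∑ w, ep * ((U w ^ 2 * ‖G x (e w)‖ ^ 2 +
      U w ^ 2 * ‖G y (e w)‖ ^ 2) / 2) := by
    refine (norm_sum_le _ _).trans (Finset.sum_le_sum fun w _ => ?_)
    rw [norm_mul, norm_mul, ← h.sym y (e w)]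
    have h2 := h.D w
    have h3 : ‖G x (e w)‖ * ‖G y (e w)‖ ≤ (‖G x (e w)‖ ^ 2 + ‖G y (e w)‖ ^ 2) / 2 := by
      nlinarith [sq_nonneg (‖G x (e w)‖ - ‖G y (e w)‖)]
    have h4 : 0 ≤ ep * U w ^ 2 := mul_nonneg h.ep0 (sq_nonneg _)
    calc ‖Dl w‖ * (‖G x (e w)‖ * ‖G y (e w)‖)
        ≤ (ep * U w ^ 2) * ((‖G x (e w)‖ ^ 2 + ‖G y (e w)‖ ^ 2) / 2) :=
          mul_le_mul h2 h3 (by positivity) h4
      _ = _ := by ring
  rw [← Finset.mul_sum] at h1
  refine h1.trans (mul_le_mul_of_nonneg_left ?_ h.ep0)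
  rw [← Finset.sum_div, Finset.sum_add_distrib]
  have := h.wardU x
  have := h.wardU y
  linarith

theorem v_four (x : X) : ∑ y, om y * ‖vv G e Dl x y‖ ^ 4 ≤ C ^ 4 * ep ^ 4 * sg U G e x := by
  have h1 := h.v_l2 x
  have hC := h.C0
  calc ∑ y, om y * ‖vv G e Dl x y‖ ^ 4
      ≤ ∑ y, (C * (ep * C) ^ 2) * (eta y * ‖vv G e Dl x y‖ ^ 2) := by
        refine Finset.sum_le_sum fun y _ => ?_
        have h2 : ‖vv G e Dl x y‖ ^ 2 ≤ (ep * C) ^ 2 :=
          pow_le_pow_left₀ (norm_nonneg _) (h.v_sup x y) 2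
        have h3 := h.om1 y
        have h5 := h.eta0 y
        calc om y * ‖vv G e Dl x y‖ ^ 4
            ≤ (C * eta y) * ((ep * C) ^ 2 * ‖vv G e Dl x y‖ ^ 2) := by
              refine mul_le_mul h3 ?_ (by positivity) (by positivity)
              calc ‖vv G e Dl x y‖ ^ 4 = ‖vv G e Dl x y‖ ^ 2 * ‖vv G e Dl x y‖ ^ 2 := by ring
                _ ≤ _ := mul_le_mul_of_nonneg_right h2 (sq_nonneg _)
          _ = _ := by ring
    _ = (C * (ep * C) ^ 2) * ∑ y, eta y * ‖vv G e Dl x y‖ ^ 2 := by rw [Finset.mul_sum]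
    _ ≤ (C * (ep * C) ^ 2) * (C * ep ^ 2 * sg U G e x) :=
        mul_le_mul_of_nonneg_left h1 (by positivity)
    _ = _ := by ring

theorem R_four (x : X) : RR om G e Dl x ^ 4 ≤ tau ^ 3 * (C ^ 4 * ep ^ 4 * sg U G e x) := by
  have h1 := hold4 om (fun y => ‖G x y‖) (fun y => ‖vv G e Dl x y‖) h.om0
  refine h1.trans ?_
  refine mul_le_mul ?_ (h.v_four x) ?_ ?_
  · exact pow_le_pow_left₀ (TT_nonneg h.om0 x) (h.T x) 3
  · exact Finset.sum_nonneg fun y _ => mul_nonneg (h.om0 y) (by positivity)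
  · exact pow_nonneg (le_trans (TT_nonneg h.om0 x) (h.T x)) 3

end Hyp

theorem pow_split {z al be : ℝ} (hz : 0 ≤ z) (h1 : z ≤ al) (h2 : z ≤ be) {n : ℕ} (hn : 1 ≤ n) :
    z ^ n ≤ al ^ (n - 1) * be := by
  obtain ⟨m, rfl⟩ : ∃ m, n = m + 1 := ⟨n - 1, by omega⟩
  rw [pow_succ, Nat.add_sub_cancel]
  exact mul_le_mul (pow_le_pow_left₀ hz h1 m) h2 hz (pow_nonneg (hz.trans h1) m)

theorem three_pow {a b c : ℝ} (ha : 0 ≤ a) (hb : 0 ≤ b) (hc : 0 ≤ c) (n : ℕ) :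
    (a + b + c) ^ n ≤ 3 ^ n * (a ^ n + b ^ n + c ^ n) := by
  have h : ∀ m, 0 ≤ m → a ≤ m → b ≤ m → c ≤ m → (a + b + c) ^ n ≤ 3 ^ n * m ^ n := by
    intro m hm h1 h2 h3
    rw [← mul_pow]
    exact pow_le_pow_left₀ (by positivity) (by linarith) n
  have ha' : 0 ≤ a ^ n := by positivity
  have hb' : 0 ≤ b ^ n := by positivity
  have hc' : 0 ≤ c ^ n := by positivity
  have h3 : (0 : ℝ) ≤ 3 ^ n := by positivity
  rcases le_total a b with hab | hab
  · rcases le_total b c with hbc | hbc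
    · exact (h c hc (hab.trans hbc) hbc le_rfl).trans (by nlinarith)
    · exact (h b hb hab le_rfl hbc).trans (by nlinarith)
  · rcases le_total a c with hac | hac
    · exact (h c hc hac (hab.trans hac) le_rfl).trans (by nlinarith)
    · exact (h a ha le_rfl hab hac).trans (by nlinarith)

theorem two_pow' {a b : ℝ} (ha : 0 ≤ a) (hb : 0 ≤ b) (n : ℕ) :
    (a + b) ^ n ≤ 2 ^ n * (a ^ n + b ^ n) := by
  have ha' : 0 ≤ a ^ n := by positivity
  have hb' : 0 ≤ b ^ n := by positivity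
  have h3 : (0 : ℝ) ≤ 2 ^ n := by positivity
  rcases le_total a b with hab | hab
  · have : (a + b) ^ n ≤ 2 ^ n * b ^ n := by
      rw [← mul_pow]; exact pow_le_pow_left₀ (by positivity) (by linarith) n
    nlinarith
  · have : (a + b) ^ n ≤ 2 ^ n * a ^ n := by
      rw [← mul_pow]; exact pow_le_pow_left₀ (by positivity) (by linarith) n
    nlinarith

theorem pow_le_one_mul {de : ℝ} (h0 : 0 ≤ de) (h1 : de ≤ 1) {m n : ℕ} (h : n ≤ m) :
    de ^ m ≤ de ^ n := pow_le_pow_of_le_one h0 h1 h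

namespace Hyp

variable {om eta fx : X → ℝ} {U : W → ℝ} {G : X → X → ℂ} {e : W → X} {Dl : W → ℂ}
  {C Lm kap tau iot ep : ℝ} (h : Hyp om eta fx U G e Dl C Lm kap tau iot ep)

include h

theorem D_pow {t de : ℝ} (ht : 0 < t) (ht1 : t ≤ 1) (hd : 0 ≤ de) (hd1 : de ≤ 1) {q : ℕ}
    (hq : 1 ≤ q) (h1 : tau ^ 3 * ep ^ 4 ≤ de * t ^ 4) (h2 : iot ≤ de * t)
    (h4 : Lm ^ 2 * (kap * tau) ≤ de * t) (x : X) :
    (DD om U G e Dl x / t) ^ (4 * q) ≤
      3 ^ (4 * q) * (256 ^ q * C ^ (5 * q) + 16 ^ (4 * q) * C ^ 6 + (6 * C ^ 5) ^ (4 * q)) *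
        (de ^ q * (Lm ^ 2 * sg U G e x / t ^ 2)) := by
  have hL2 : 1 ≤ Lm ^ 2 := one_le_pow₀ h.Lm1
  have hC := h.C0
  have hC1 := h.C1
  have hs0 : 0 ≤ sg U G e x := sg_nonneg x
  have hsC := h.sg_le x
  have hR0 : 0 ≤ RR om G e Dl x := RR_nonneg h.om0 x
  have hI0 : 0 ≤ II om U G e x := II_nonneg h.om0 x
  have hE0 : 0 ≤ EE om U G e x := EE_nonneg h.om0 x
  have hLs : sg U G e x ≤ Lm ^ 2 * sg U G e x := by nlinarith
  have ht2 : sg U G e x ≤ Lm ^ 2 * sg U G e x / t ^ 2 := by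
    rw [le_div_iff₀ (by positivity)]
    have : t ^ 2 ≤ 1 := pow_le_one₀ ht.le ht1
    nlinarith
  have hdq0 : 0 ≤ de ^ q := pow_nonneg hd q
  -- first term
  have ha : (4 * RR om G e Dl x / t) ^ (4 * q) ≤
      256 ^ q * C ^ (5 * q) * (de ^ q * (Lm ^ 2 * sg U G e x / t ^ 2)) := by
    have e1 : (4 * RR om G e Dl x / t) ^ (4 * q) = 256 ^ q * (RR om G e Dl x ^ 4 / t ^ 4) ^ q := by
      rw [pow_mul, div_pow, mul_pow, mul_div_assoc, mul_pow]
      norm_num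
    have e2 : RR om G e Dl x ^ 4 / t ^ 4 ≤ C ^ 4 * de * sg U G e x := by
      rw [div_le_iff₀ (by positivity)]
      calc RR om G e Dl x ^ 4 ≤ tau ^ 3 * (C ^ 4 * ep ^ 4 * sg U G e x) := h.R_four x
        _ = (tau ^ 3 * ep ^ 4) * (C ^ 4 * sg U G e x) := by ring
        _ ≤ (de * t ^ 4) * (C ^ 4 * sg U G e x) :=
            mul_le_mul_of_nonneg_right h1 (by positivity)
        _ = _ := by ring
    have e3 : sg U G e x ^ q ≤ C ^ q * sg U G e x := by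
      refine (pow_split hs0 hsC le_rfl hq).trans ?_
      exact mul_le_mul_of_nonneg_right (pow_le_pow_right₀ hC1 (by omega)) hs0
    rw [e1, mul_assoc (256 ^ q)]
    refine mul_le_mul_of_nonneg_left ?_ (by positivity)
    calc (RR om G e Dl x ^ 4 / t ^ 4) ^ q ≤ (C ^ 4 * de * sg U G e x) ^ q :=
          pow_le_pow_left₀ (by positivity) e2 q
      _ = (C ^ 4) ^ q * de ^ q * sg U G e x ^ q := by rw [mul_pow, mul_pow]
      _ ≤ (C ^ 4) ^ q * de ^ q * (C ^ q * sg U G e x) :=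
          mul_le_mul_of_nonneg_left e3 (by positivity)
      _ = C ^ (5 * q) * (de ^ q * sg U G e x) := by
          rw [← pow_mul]
          have : C ^ (5 * q) = C ^ (4 * q) * C ^ q := by rw [← pow_add]; congr 1; ring
          rw [this]; ring
      _ ≤ C ^ (5 * q) * (de ^ q * (Lm ^ 2 * sg U G e x / t ^ 2)) := by gcongr
  -- second term
  have hb : (16 * II om U G e x / t) ^ (4 * q) ≤
      16 ^ (4 * q) * C ^ 6 * (de ^ q * (Lm ^ 2 * sg U G e x / t ^ 2)) := by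
    have e1 : (16 * II om U G e x / t) ^ (4 * q) = 16 ^ (4 * q) * (II om U G e x / t) ^ (4 * q) := by
      rw [mul_div_assoc, mul_pow]
    have e2 : II om U G e x / t ≤ de := by
      rw [div_le_iff₀ ht]
      exact (h.I x).trans h2
    have e3 : II om U G e x / t ≤ C ^ 4 * (Lm ^ 2 * sg U G e x / t ^ 2) := by
      have e4 := h.I_sg x
      have e5 : II om U G e x / t ≤ C ^ 4 * (Lm ^ 2 * sg U G e x) / t := by
        refine div_le_div_of_nonneg_right (e4.trans ?_) ht.le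
        have e6 : C ^ 2 ≤ C ^ 4 := pow_le_pow_right₀ hC1 (by norm_num)
        calc C ^ 2 * Lm ^ 2 * sg U G e x ≤ C ^ 4 * Lm ^ 2 * sg U G e x := by gcongr
          _ = _ := by ring
      refine e5.trans ?_
      rw [mul_div_assoc]
      refine mul_le_mul_of_nonneg_left ?_ (by positivity)
      have hs1 : 0 ≤ Lm ^ 2 * sg U G e x := by positivity
      rw [div_le_div_iff₀ ht (by positivity)]
      nlinarith [mul_nonneg hs1 ht.le]
    have e6 : 0 ≤ II om U G e x / t := by positivity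
    rw [e1, mul_assoc]
    refine mul_le_mul_of_nonneg_left ?_ (by positivity)
    refine (pow_split e6 e2 e3 (by omega)).trans ?_
    have e7 : de ^ (4 * q - 1) ≤ de ^ q := pow_le_one_mul hd hd1 (by omega)
    have e8 : C ^ 4 ≤ C ^ 6 := pow_le_pow_right₀ hC1 (by norm_num)
    calc de ^ (4 * q - 1) * (C ^ 4 * (Lm ^ 2 * sg U G e x / t ^ 2))
        ≤ de ^ q * (C ^ 6 * (Lm ^ 2 * sg U G e x / t ^ 2)) := by gcongr
      _ = _ := by ring
  -- third term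
  have hc : (6 * EE om U G e x / t) ^ (4 * q) ≤
      (6 * C ^ 5) ^ (4 * q) * (de ^ q * (Lm ^ 2 * sg U G e x / t ^ 2)) := by
    have e2 : EE om U G e x / t ≤ C ^ 2 * de * sg U G e x := by
      rw [div_le_iff₀ ht]
      have hC2 : 1 ≤ C ^ 2 := one_le_pow₀ hC1
      calc EE om U G e x ≤ Lm ^ 2 * kap * tau * sg U G e x := h.E_sg x
        _ = (Lm ^ 2 * (kap * tau)) * sg U G e x := by ring
        _ ≤ (de * t) * sg U G e x := mul_le_mul_of_nonneg_right h4 hs0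
        _ = 1 * (de * t * sg U G e x) := by ring
        _ ≤ C ^ 2 * (de * t * sg U G e x) := mul_le_mul_of_nonneg_right hC2 (by positivity)
        _ = _ := by ring
    have e3 : 6 * EE om U G e x / t ≤ 6 * C ^ 5 * de := by
      rw [mul_div_assoc, mul_assoc]
      refine mul_le_mul_of_nonneg_left (e2.trans ?_) (by norm_num)
      have e4 : C ^ 3 ≤ C ^ 5 := pow_le_pow_right₀ hC1 (by norm_num)
      calc C ^ 2 * de * sg U G e x ≤ C ^ 2 * de * C := by gcongr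
        _ = C ^ 3 * de := by ring
        _ ≤ C ^ 5 * de := by gcongr
    have e5 : 6 * EE om U G e x / t ≤ 6 * C ^ 5 * (de * sg U G e x) := by
      rw [mul_div_assoc, mul_assoc]
      refine mul_le_mul_of_nonneg_left (e2.trans ?_) (by norm_num)
      have e4 : C ^ 2 ≤ C ^ 5 := pow_le_pow_right₀ hC1 (by norm_num)
      calc C ^ 2 * de * sg U G e x ≤ C ^ 5 * de * sg U G e x := by gcongr
        _ = _ := by ring
    have e6 : 0 ≤ 6 * EE om U G e x / t := by positivity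
    refine (pow_split e6 e3 e5 (by omega)).trans ?_
    have e7 : de ^ (4 * q - 1) * de ≤ de ^ q := by
      rw [← pow_succ]
      exact pow_le_one_mul hd hd1 (by omega)
    have e8 : (6 * C ^ 5) ^ (4 * q) = (6 * C ^ 5) ^ (4 * q - 1) * (6 * C ^ 5) := by
      rw [← pow_succ]; congr 1; omega
    calc (6 * C ^ 5 * de) ^ (4 * q - 1) * (6 * C ^ 5 * (de * sg U G e x))
        = (6 * C ^ 5) ^ (4 * q) * ((de ^ (4 * q - 1) * de) * sg U G e x) := by
          rw [mul_pow, e8]; ring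
      _ ≤ (6 * C ^ 5) ^ (4 * q) * (de ^ q * (Lm ^ 2 * sg U G e x / t ^ 2)) := by gcongr
  have e0 : DD om U G e Dl x / t = 4 * RR om G e Dl x / t + 16 * II om U G e x / t +
      6 * EE om U G e x / t := by
    unfold DD; ring
  rw [e0]
  refine (three_pow (by positivity) (by positivity) (by positivity) _).trans ?_
  rw [mul_assoc]
  refine mul_le_mul_of_nonneg_left ?_ (by positivity)
  rw [add_mul, add_mul]
  exact add_le_add (add_le_add ha hb) hc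

theorem Q_pow {t de : ℝ} (ht : 0 < t) (ht1 : t ≤ 1) (hd : 0 ≤ de) (hd1 : de ≤ 1) {q : ℕ}
    (hq : 1 ≤ q) (h3 : tau * iot ≤ de * t ^ 2)
    (h4 : Lm ^ 2 * (kap * tau) ≤ de * t) (x : X) :
    (QQ om U G e x / t ^ 2) ^ (2 * q) ≤
      2 ^ (2 * q) * (450 ^ (2 * q) * C ^ 6 + (450 * C ^ 10) ^ (2 * q)) *
        (de ^ q * (Lm ^ 2 * sg U G e x / t ^ 2)) := by
  have hL2 : 1 ≤ Lm ^ 2 := one_le_pow₀ h.Lm1
  have hC := h.C0
  have hC1 := h.C1
  have hs0 : 0 ≤ sg U G e x := sg_nonneg x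
  have hsC := h.sg_le x
  have hI0 : 0 ≤ II om U G e x := II_nonneg h.om0 x
  have hE0 : 0 ≤ EE om U G e x := EE_nonneg h.om0 x
  have hT0 : 0 ≤ TT om G x := TT_nonneg h.om0 x
  have hTt := h.T x
  have hLs : sg U G e x ≤ Lm ^ 2 * sg U G e x := by nlinarith
  have ht2 : sg U G e x ≤ Lm ^ 2 * sg U G e x / t ^ 2 := by
    rw [le_div_iff₀ (by positivity)]
    have : t ^ 2 ≤ 1 := pow_le_one₀ ht.le ht1
    nlinarith
  have ha : (450 * (TT om G x * II om U G e x / t ^ 2)) ^ (2 * q) ≤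
      450 ^ (2 * q) * C ^ 6 * (de ^ q * (Lm ^ 2 * sg U G e x / t ^ 2)) := by
    have e2 : TT om G x * II om U G e x / t ^ 2 ≤ de := by
      rw [div_le_iff₀ (by positivity)]
      exact (mul_le_mul hTt (h.I x) hI0 (hT0.trans hTt)).trans h3
    have e3 : TT om G x * II om U G e x / t ^ 2 ≤ C ^ 6 * (Lm ^ 2 * sg U G e x / t ^ 2) := by
      rw [← mul_div_assoc]
      refine div_le_div_of_nonneg_right ?_ (by positivity)
      have e4 := h.I_sg x
      have e5 : C ^ 2 ≤ C ^ 6 := pow_le_pow_right₀ hC1 (by norm_num)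
      calc TT om G x * II om U G e x ≤ 1 * (C ^ 2 * Lm ^ 2 * sg U G e x) :=
            mul_le_mul (hTt.trans h.tau1) e4 hI0 zero_le_one
        _ = C ^ 2 * (Lm ^ 2 * sg U G e x) := by ring
        _ ≤ _ := mul_le_mul_of_nonneg_right e5 (by positivity)
    have e6 : 0 ≤ TT om G x * II om U G e x / t ^ 2 := by positivity
    rw [mul_pow, mul_assoc]
    refine mul_le_mul_of_nonneg_left ?_ (by positivity)
    refine (pow_split e6 e2 e3 (by omega)).trans ?_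
    have e7 : de ^ (2 * q - 1) ≤ de ^ q := pow_le_one_mul hd hd1 (by omega)
    calc de ^ (2 * q - 1) * (C ^ 6 * (Lm ^ 2 * sg U G e x / t ^ 2))
        ≤ de ^ q * (C ^ 6 * (Lm ^ 2 * sg U G e x / t ^ 2)) := by gcongr
      _ = _ := by ring
  have hb : (450 * (EE om U G e x ^ 2 / t ^ 2)) ^ (2 * q) ≤
      (450 * C ^ 10) ^ (2 * q) * (de ^ q * (Lm ^ 2 * sg U G e x / t ^ 2)) := by
    have e2 : EE om U G e x / t ≤ C ^ 2 * de * sg U G e x := by
      rw [div_le_iff₀ ht]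
      have hC2 : 1 ≤ C ^ 2 := one_le_pow₀ hC1
      calc EE om U G e x ≤ Lm ^ 2 * kap * tau * sg U G e x := h.E_sg x
        _ = (Lm ^ 2 * (kap * tau)) * sg U G e x := by ring
        _ ≤ (de * t) * sg U G e x := mul_le_mul_of_nonneg_right h4 hs0
        _ = 1 * (de * t * sg U G e x) := by ring
        _ ≤ C ^ 2 * (de * t * sg U G e x) := mul_le_mul_of_nonneg_right hC2 (by positivity)
        _ = _ := by ring
    have e3 : EE om U G e x / t ≤ C ^ 3 * de := by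
      refine e2.trans ?_
      calc C ^ 2 * de * sg U G e x ≤ C ^ 2 * de * C := by gcongr
        _ = C ^ 3 * de := by ring
    have e4 : EE om U G e x ^ 2 / t ^ 2 ≤ C ^ 10 * de := by
      rw [← div_pow]
      have e5 : (EE om U G e x / t) ^ 2 ≤ (C ^ 3 * de) ^ 2 :=
        pow_le_pow_left₀ (by positivity) e3 2
      refine e5.trans ?_
      have e6 : C ^ 6 ≤ C ^ 10 := pow_le_pow_right₀ hC1 (by norm_num)
      calc (C ^ 3 * de) ^ 2 = C ^ 6 * (de * de) := by ring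
        _ ≤ C ^ 10 * (de * 1) := by gcongr
        _ = _ := by ring
    have e5 : EE om U G e x ^ 2 / t ^ 2 ≤ C ^ 10 * (de * sg U G e x) := by
      rw [← div_pow]
      have e5 : (EE om U G e x / t) ^ 2 ≤ (C ^ 3 * de) * (C ^ 2 * de * sg U G e x) := by
        rw [sq]
        exact mul_le_mul e3 e2 (by positivity) (by positivity)
      refine e5.trans ?_
      have e6 : C ^ 5 ≤ C ^ 10 := pow_le_pow_right₀ hC1 (by norm_num)
      calc (C ^ 3 * de) * (C ^ 2 * de * sg U G e x) = C ^ 5 * (de * de * sg U G e x) := by ring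
        _ ≤ C ^ 10 * (de * 1 * sg U G e x) := by gcongr
        _ = _ := by ring
    have e6 : 0 ≤ EE om U G e x ^ 2 / t ^ 2 := by positivity
    rw [mul_pow, mul_pow, mul_assoc]
    refine mul_le_mul_of_nonneg_left ?_ (by positivity)
    refine (pow_split e6 e4 e5 (by omega)).trans ?_
    have e7 : de ^ (2 * q - 1) * de ≤ de ^ q := by
      rw [← pow_succ]
      exact pow_le_one_mul hd hd1 (by omega)
    have e8 : (C ^ 10) ^ (2 * q) = (C ^ 10) ^ (2 * q - 1) * C ^ 10 := by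
      rw [← pow_succ]; congr 1; omega
    calc (C ^ 10 * de) ^ (2 * q - 1) * (C ^ 10 * (de * sg U G e x))
        = (C ^ 10) ^ (2 * q) * ((de ^ (2 * q - 1) * de) * sg U G e x) := by
          rw [mul_pow, e8]; ring
      _ ≤ (C ^ 10) ^ (2 * q) * (de ^ q * (Lm ^ 2 * sg U G e x / t ^ 2)) := by gcongr
  have e0 : QQ om U G e x / t ^ 2 = 450 * (TT om G x * II om U G e x / t ^ 2) +
      450 * (EE om U G e x ^ 2 / t ^ 2) := by
    unfold QQ; ring
  rw [e0]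
  refine (two_pow' (by positivity) (by positivity) _).trans ?_
  rw [mul_assoc]
  refine mul_le_mul_of_nonneg_left ?_ (by positivity)
  rw [add_mul]
  exact add_le_add ha hb

/-- **the component estimate** -/
theorem comp {t de : ℝ} (ht : 0 < t) (ht1 : t ≤ 1) (hd : 0 ≤ de) (hd1 : de ≤ 1) {q : ℕ}
    (hq : 1 ≤ q) (h1 : tau ^ 3 * ep ^ 4 ≤ de * t ^ 4) (h2 : iot ≤ de * t)
    (h3 : tau * iot ≤ de * t ^ 2) (h4 : Lm ^ 2 * (kap * tau) ≤ de * t) :
    ∑ x, fx x * ((DD om U G e Dl x / t) ^ (4 * q) + (QQ om U G e x / t ^ 2) ^ (2 * q)) ≤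
      KT q C * Lm ^ 2 * (∑ w, U w ^ 2) * (de ^ q / t ^ 2) := by
  have hC := h.C0
  have hs := h.sg_sum
  set K1 := 3 ^ (4 * q) * (256 ^ q * C ^ (5 * q) + 16 ^ (4 * q) * C ^ 6 + (6 * C ^ 5) ^ (4 * q))
    with hK1
  set K2 := 2 ^ (2 * q) * (450 ^ (2 * q) * C ^ 6 + (450 * C ^ 10) ^ (2 * q)) with hK2
  have hK10 : 0 ≤ K1 := by positivity
  have hK20 : 0 ≤ K2 := by positivity
  have hdt : 0 ≤ de ^ q / t ^ 2 := by positivity
  calc ∑ x, fx x * ((DD om U G e Dl x / t) ^ (4 * q) + (QQ om U G e x / t ^ 2) ^ (2 * q))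
      ≤ ∑ x, fx x * ((K1 + K2) * (de ^ q * (Lm ^ 2 * sg U G e x / t ^ 2))) := by
        refine Finset.sum_le_sum fun x _ => mul_le_mul_of_nonneg_left ?_ (h.fx0 x)
        rw [add_mul]
        exact add_le_add (h.D_pow ht ht1 hd hd1 hq h1 h2 h4 x) (h.Q_pow ht ht1 hd hd1 hq h3 h4 x)
    _ = (K1 + K2) * Lm ^ 2 * (de ^ q / t ^ 2) * ∑ x, fx x * sg U G e x := by
        rw [Finset.mul_sum]
        refine Finset.sum_congr rfl fun x _ => ?_
        ring
    _ ≤ (K1 + K2) * Lm ^ 2 * (de ^ q / t ^ 2) * (C * ∑ w, U w ^ 2) :=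
        mul_le_mul_of_nonneg_left hs (by positivity)
    _ = _ := by
        unfold KT
        rw [← hK1, ← hK2]
        ring

end Hyp

end Pool.Agent.ANS.T4
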