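import Pool.Agent.ANS.T4.Alg

/-! # ANS/T4 Drift: drift and quadratic variation of the fourth power sums (AND project)

One configuration.  `G : X → X → ℂ` (the current resolvent), noise sites `W` embedded by `e : W → X`,
replacement of the value at `w` by `a : Option A` changes `G x y` into
`G x y - u w a * (G x (e w) * G (e w) y)` (exact rank one formula).

* `TT om G x = ∑ y, om y |G x y|⁴`, `TTr om G e u x w a` the value after the replacement.
* `II om U G e x = ∑ w, ∑ y, om y U_w² S_xy S_xw S_wy`, `EE = ∑ w, U_w⁴ S_xw² T_w`.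
* `drift_le`: `|∑_w (∑_a pr TTr(some a) - TTr(none))| ≤ 4 |∑ y om |G|³ |v|| + 16 II + 6 EE`,
  `v y = ∑_w Δ_w G_xw G_wy`, `Δ_w = ∑_a pr u(some a) - u(none)`.
* `qv_le`: `∑_w max_a |TTr - TT|² ≤ 450 (TT * II + (max T)… EE)`.
-/

set_option autoImplicit false

open Finset

noncomputable section

namespace Pool.Agent.ANS.T4

variable {X W A : Type} [Fintype X] [Fintype W] [Fintype A]

/-- the fourth power sum -/
def TT (om : X → ℝ) (G : X → X → ℂ) (x : X) : ℝ := ∑ y, om y * ‖G x y‖ ^ 4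

/-- the fourth power sum after the replacement -/
def TTr (om : X → ℝ) (G : X → X → ℂ) (e : W → X) (u : W → Option A → ℂ) (x : X) (w : W)
    (a : Option A) : ℝ :=
  ∑ y, om y * ‖G x y - u w a * (G x (e w) * G (e w) y)‖ ^ 4

/-- the triangle sum -/
def II (om : X → ℝ) (U : W → ℝ) (G : X → X → ℂ) (e : W → X) (x : X) : ℝ :=
  ∑ w, ∑ y, om y * (U w ^ 2 * (‖G x y‖ ^ 2 * (‖G x (e w)‖ ^ 2 * ‖G (e w) y‖ ^ 2)))

/-- the quartic error sum -/
def EE (om : X → ℝ) (U : W → ℝ) (G : X → X → ℂ) (e : W → X) (x : X) : ℝ :=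
  ∑ w, ∑ y, om y * (U w ^ 4 * (‖G x (e w)‖ ^ 4 * ‖G (e w) y‖ ^ 4))

/-- the drift of the entries -/
def vv (G : X → X → ℂ) (e : W → X) (Dl : W → ℂ) (x y : X) : ℂ :=
  ∑ w, Dl w * (G x (e w) * G (e w) y)

theorem drift_le {om : X → ℝ} (hom : ∀ y, 0 ≤ om y) {G : X → X → ℂ} {e : W → X}
    {pr : W → A → ℝ} (hp0 : ∀ w a, 0 ≤ pr w a) (hp1 : ∀ w, ∑ a, pr w a = 1)
    {u : W → Option A → ℂ} {U : W → ℝ} (hU : ∀ w a, ‖u w a‖ ≤ U w) (x : X) :
    |∑ w, (∑ a, pr w a * TTr om G e u x w (some a) - TTr om G e u x w none)| ≤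
      4 * (∑ y, om y * (‖G x y‖ ^ 3 *
        ‖vv G e (fun w => ∑ a, (pr w a : ℂ) * u w (some a) - u w none) x y‖)) +
      16 * II om U G e x + 6 * EE om U G e x := by
  classical
  -- the remainder of the linear expansion
  set q : W → X → ℂ := fun w y => G x (e w) * G (e w) y with hq
  set lin : W → X → ℂ → ℝ := fun w y z => 4 * ‖G x y‖ ^ 2 * (star (G x y) * (z * q w y)).re
    with hlin
  set rem : W → Option A → ℝ := fun w a =>
    TTr om G e u x w a - TT om G x + ∑ y, om y * lin w y (u w a) with hrem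
  have hremb : ∀ w a, |rem w a| ≤ ∑ y, om y * (8 * (U w ^ 2 * (‖G x y‖ ^ 2 *
      (‖G x (e w)‖ ^ 2 * ‖G (e w) y‖ ^ 2))) + 3 * (U w ^ 4 * (‖G x (e w)‖ ^ 4 *
        ‖G (e w) y‖ ^ 4))) := by
    intro w a
    have h1 : rem w a = ∑ y, om y * (‖G x y - u w a * q w y‖ ^ 4 - ‖G x y‖ ^ 4 +
        4 * ‖G x y‖ ^ 2 * (star (G x y) * (u w a * q w y)).re) := by
      simp only [hrem, TTr, TT, hlin, hq]
      rw [← Finset.sum_sub_distrib, ← Finset.sum_add_distrib]
      refine Finset.sum_congr rfl fun y _ => ?_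
      ring
    rw [h1]
    refine (Finset.abs_sum_le_sum_abs _ _).trans (Finset.sum_le_sum fun y _ => ?_)
    rw [abs_mul, abs_of_nonneg (hom y)]
    refine mul_le_mul_of_nonneg_left ?_ (hom y)
    refine (four_lin _ _).trans ?_
    have hu0 : 0 ≤ ‖u w a‖ := norm_nonneg _
    have hUu := hU w a
    have h2 : ‖u w a * q w y‖ ^ 2 ≤ U w ^ 2 * (‖G x (e w)‖ ^ 2 * ‖G (e w) y‖ ^ 2) := by
      simp only [hq, norm_mul, mul_pow]
      exact mul_le_mul_of_nonneg_right (pow_le_pow_left₀ hu0 hUu 2) (by positivity)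
    have h4 : ‖u w a * q w y‖ ^ 4 ≤ U w ^ 4 * (‖G x (e w)‖ ^ 4 * ‖G (e w) y‖ ^ 4) := by
      simp only [hq, norm_mul, mul_pow]
      exact mul_le_mul_of_nonneg_right (pow_le_pow_left₀ hu0 hUu 4) (by positivity)
    have h3 : ‖G x y‖ ^ 2 * ‖u w a * q w y‖ ^ 2 ≤
        U w ^ 2 * (‖G x y‖ ^ 2 * (‖G x (e w)‖ ^ 2 * ‖G (e w) y‖ ^ 2)) := by
      refine (mul_le_mul_of_nonneg_left h2 (sq_nonneg _)).trans (le_of_eq ?_)
      ring
    linarith
  -- rewrite the drift
  have h5 : ∀ w, ∑ a, pr w a * TTr om G e u x w (some a) - TTr om G e u x w none =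
      (∑ a, pr w a * rem w (some a) - rem w none) -
        ∑ y, om y * lin w y (∑ a, (pr w a : ℂ) * u w (some a) - u w none) := by
    intro w
    have h6 : ∀ z, TTr om G e u x w z = rem w z + TT om G x - ∑ y, om y * lin w y (u w z) := by
      intro z; simp only [hrem]; ring
    have h7 : ∑ a, pr w a * TTr om G e u x w (some a) =
        ∑ a, pr w a * rem w (some a) + TT om G x -
          ∑ a, pr w a * ∑ y, om y * lin w y (u w (some a)) := by
      simp only [h6]
      simp only [mul_add, mul_sub, Finset.sum_add_distrib, Finset.sum_sub_distrib]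
      rw [← Finset.sum_mul, hp1, one_mul]
    have h8 : ∑ y, om y * lin w y (∑ a, (pr w a : ℂ) * u w (some a) - u w none) =
        ∑ a, pr w a * ∑ y, om y * lin w y (u w (some a)) - ∑ y, om y * lin w y (u w none) := by
      simp only [Finset.mul_sum]
      rw [Finset.sum_comm, ← Finset.sum_sub_distrib]
      refine Finset.sum_congr rfl fun y _ => ?_
      simp only [hlin]
      have h9 : (star (G x y) * ((∑ a, (pr w a : ℂ) * u w (some a) - u w none) * q w y)).re =
          ∑ a, pr w a * (star (G x y) * (u w (some a) * q w y)).re -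
            (star (G x y) * (u w none * q w y)).re := by
        rw [sub_mul, mul_sub, Complex.sub_re, Finset.sum_mul, Finset.mul_sum, Complex.re_sum]
        congr 1
        refine Finset.sum_congr rfl fun a _ => ?_
        rw [show star (G x y) * ((pr w a : ℂ) * u w (some a) * q w y) =
          (pr w a : ℂ) * (star (G x y) * (u w (some a) * q w y)) by ring, Complex.re_ofReal_mul]
      rw [h9, mul_sub, mul_sub, Finset.mul_sum, Finset.mul_sum]
      congr 1
      refine Finset.sum_congr rfl fun a _ => ?_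
      ring
    rw [h7, h6 none, h8]
    ring
  have h10 : ∑ w, ∑ y, om y * lin w y (∑ a, (pr w a : ℂ) * u w (some a) - u w none) =
      ∑ y, om y * (4 * ‖G x y‖ ^ 2 * (star (G x y) *
        vv G e (fun w => ∑ a, (pr w a : ℂ) * u w (some a) - u w none) x y).re) := by
    rw [Finset.sum_comm]
    refine Finset.sum_congr rfl fun y _ => ?_
    rw [← Finset.mul_sum]
    congr 1
    simp only [hlin, vv, hq]
    rw [← Finset.mul_sum, ← Complex.re_sum, ← Finset.mul_sum]
  simp only [h5]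
  rw [Finset.sum_sub_distrib, h10]
  have h11 : |∑ w, (∑ a, pr w a * rem w (some a) - rem w none)| ≤
      16 * II om U G e x + 6 * EE om U G e x := by
    refine (Finset.abs_sum_le_sum_abs _ _).trans ?_
    have h12 : ∀ w, |∑ a, pr w a * rem w (some a) - rem w none| ≤
        2 * ∑ y, om y * (8 * (U w ^ 2 * (‖G x y‖ ^ 2 *
      (‖G x (e w)‖ ^ 2 * ‖G (e w) y‖ ^ 2))) + 3 * (U w ^ 4 * (‖G x (e w)‖ ^ 4 *
        ‖G (e w) y‖ ^ 4))) := by
      intro w
      have h13 : |∑ a, pr w a * rem w (some a)| ≤ ∑ y, om y * (8 * (U w ^ 2 * (‖G x y‖ ^ 2 *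
          (‖G x (e w)‖ ^ 2 * ‖G (e w) y‖ ^ 2))) + 3 * (U w ^ 4 * (‖G x (e w)‖ ^ 4 *
          ‖G (e w) y‖ ^ 4))) := by
        refine (Finset.abs_sum_le_sum_abs _ _).trans ?_
        calc ∑ a, |pr w a * rem w (some a)| ≤ ∑ a, pr w a * ∑ y, om y * (8 * (U w ^ 2 *
              (‖G x y‖ ^ 2 * (‖G x (e w)‖ ^ 2 * ‖G (e w) y‖ ^ 2))) + 3 * (U w ^ 4 *
              (‖G x (e w)‖ ^ 4 * ‖G (e w) y‖ ^ 4))) := by
              refine Finset.sum_le_sum fun a _ => ?_
              rw [abs_mul, abs_of_nonneg (hp0 w a)]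
              exact mul_le_mul_of_nonneg_left (hremb w (some a)) (hp0 w a)
          _ = _ := by rw [← Finset.sum_mul, hp1, one_mul]
      have h14 := hremb w none
      have h15 := abs_sub (∑ a, pr w a * rem w (some a)) (rem w none)
      linarith
    refine (Finset.sum_le_sum fun w _ => h12 w).trans (le_of_eq ?_)
    simp only [II, EE, mul_add, Finset.sum_add_distrib, Finset.mul_sum]
    congr 1
    · refine Finset.sum_congr rfl fun w _ => Finset.sum_congr rfl fun y _ => ?_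
      ring
    · refine Finset.sum_congr rfl fun w _ => Finset.sum_congr rfl fun y _ => ?_
      ring
  have h16 : |∑ y, om y * (4 * ‖G x y‖ ^ 2 * (star (G x y) *
        vv G e (fun w => ∑ a, (pr w a : ℂ) * u w (some a) - u w none) x y).re)| ≤
      4 * (∑ y, om y * (‖G x y‖ ^ 3 *
        ‖vv G e (fun w => ∑ a, (pr w a : ℂ) * u w (some a) - u w none) x y‖)) := by
    rw [Finset.mul_sum]
    refine (Finset.abs_sum_le_sum_abs _ _).trans (Finset.sum_le_sum fun y _ => ?_)
    rw [abs_mul, abs_of_nonneg (hom y), abs_mul,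
      abs_of_nonneg (by positivity : (0 : ℝ) ≤ 4 * ‖G x y‖ ^ 2)]
    have h17 := re_le (G x y) (vv G e (fun w => ∑ a, (pr w a : ℂ) * u w (some a) - u w none) x y)
    have h18 : 4 * ‖G x y‖ ^ 2 * |(star (G x y) *
        vv G e (fun w => ∑ a, (pr w a : ℂ) * u w (some a) - u w none) x y).re| ≤
        4 * ‖G x y‖ ^ 2 * (‖G x y‖ *
          ‖vv G e (fun w => ∑ a, (pr w a : ℂ) * u w (some a) - u w none) x y‖) :=
      mul_le_mul_of_nonneg_left h17 (by positivity)
    calc _ ≤ om y * (4 * ‖G x y‖ ^ 2 * (‖G x y‖ *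
          ‖vv G e (fun w => ∑ a, (pr w a : ℂ) * u w (some a) - u w none) x y‖)) :=
          mul_le_mul_of_nonneg_left h18 (hom y)
      _ = _ := by ring
  have h19 := abs_sub (∑ w, (∑ a, pr w a * rem w (some a) - rem w none))
    (∑ y, om y * (4 * ‖G x y‖ ^ 2 * (star (G x y) *
        vv G e (fun w => ∑ a, (pr w a : ℂ) * u w (some a) - u w none) x y).re))
  linarith

end Pool.Agent.ANS.T4
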