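import Pool.Agent.ANF.Heat.Torus
import Pool.Agent.ANS.T4.Comp

/-! # ANS/T4 Phi: the triangle sum from the form bound (H4low) (AND project)

`phi_le`: helper43's `lowhigh` with a bound `mm` of `m` only on the support of `s` (static sites may
have a much larger absorption).
`form_id`: `∑ m u² - Q(u) = ∑∑ u_x η_x S_xy η_y u_y` (Ward).
`II_le`: `II ≤ Cw Cu [ (dA + 4 CH l² K mm) ∑_A m S_x² + (28 CH ρ(l) K + ..) (∑_A m S_x)² ]`. -/

set_option autoImplicit false

open Finset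

noncomputable section

namespace Pool.Agent.ANS.T4

open Pool.Agent.ANF.Heat

variable {d L : ℕ}

theorem phi_le [NeZero L] (hd : 3 ≤ d) (l : ℝ) (hl : 1 ≤ l) (hlL : l ≤ L)
    (X : Finset (Fin d → ZMod L)) (m dl : (Fin d → ZMod L) → ℝ) (K mm mk q : ℝ) (hK : 0 < K)
    (hmm : 0 ≤ mm) (hm : ∀ x ∈ X, 0 ≤ m x) (hdl : ∀ x ∈ X, 0 ≤ dl x)
    (hmk : 0 < mk) (hmk' : mk ≤ ∑ x ∈ X, min (m x) mm / (1 + dl x))
    (s a : (Fin d → ZMod L) → ℝ) (hs : ∀ x ∈ X, s x ≠ 0 → m x ≤ mm)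
    (h : DT a / K + ∑ x ∈ X, m x * (s x - a x) ^ 2 / (1 + dl x) ≤ q) :
    ∑ x ∈ X, m x * s x ^ 2 - q ≤ ∑ x ∈ X, dl x / (1 + dl x) * (m x * s x ^ 2) +
      4 * CH d * l ^ 2 * K * mm * ∑ x ∈ X, m x * s x ^ 2 +
      (28 * CH d * rho d l * K + (3 + 24 * CH d * l ^ 2 * K * mm) / mk) *
        (∑ x ∈ X, m x * |s x|) ^ 2 := by
  have h1 := lowhigh hd l hl hlL X (fun x => min (m x) mm) dl K mm mk q hK hmm
    (fun x hx => ⟨le_min (hm x hx) hmm, min_le_right _ _⟩) hdl hmk hmk' s a (by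
      refine le_trans (add_le_add le_rfl (Finset.sum_le_sum fun x hx => ?_)) h
      have := hdl x hx
      have h2 : min (m x) mm * (s x - a x) ^ 2 ≤ m x * (s x - a x) ^ 2 :=
        mul_le_mul_of_nonneg_right (min_le_left _ _) (sq_nonneg _)
      exact div_le_div_of_nonneg_right h2 (by linarith))
  have h2 : ∀ x ∈ X, min (m x) mm * s x ^ 2 = m x * s x ^ 2 := fun x hx => by
    by_cases h0 : s x = 0
    · simp [h0]
    · rw [min_eq_left (hs x hx h0)]
  have h3 : ∀ x ∈ X, min (m x) mm * |s x| = m x * |s x| := fun x hx => by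
    by_cases h0 : s x = 0
    · simp [h0]
    · rw [min_eq_left (hs x hx h0)]
  have h4 : ∑ x ∈ X, dl x / (1 + dl x) * (min (m x) mm * s x ^ 2) =
      ∑ x ∈ X, dl x / (1 + dl x) * (m x * s x ^ 2) :=
    Finset.sum_congr rfl fun x hx => by rw [h2 x hx]
  rw [h4, Finset.sum_congr rfl h2, Finset.sum_congr rfl h3] at h1
  exact h1

section form

variable {T : Type} {X : Finset T} {eta iota : T → ℝ} {S : T → T → ℝ}

/-- the pair form -/
def Qf (X : Finset T) (eta : T → ℝ) (S : T → T → ℝ) (u : T → ℝ) : ℝ :=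
  (1 / 2) * ∑ x ∈ X, ∑ y ∈ X, eta x * S x y * eta y * (u x - u y) ^ 2

theorem form_id (hS : ∀ x ∈ X, ∀ y ∈ X, S x y = S y x)
    (hW : ∀ x ∈ X, ∑ y ∈ X, eta y * S x y = iota x) (u : T → ℝ) :
    ∑ x ∈ X, eta x * iota x * u x ^ 2 - Qf X eta S u =
      ∑ x ∈ X, ∑ y ∈ X, (u x * eta x) * S x y * (eta y * u y) := by
  have h1 : ∑ x ∈ X, ∑ y ∈ X, eta x * S x y * eta y * (u x - u y) ^ 2 =
      (∑ x ∈ X, ∑ y ∈ X, eta x * S x y * eta y * u x ^ 2) +
      (∑ x ∈ X, ∑ y ∈ X, eta x * S x y * eta y * u y ^ 2) -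
      2 * ∑ x ∈ X, ∑ y ∈ X, (u x * eta x) * S x y * (eta y * u y) := by
    rw [Finset.mul_sum, ← Finset.sum_add_distrib, ← Finset.sum_sub_distrib]
    refine Finset.sum_congr rfl fun x _ => ?_
    rw [Finset.mul_sum, ← Finset.sum_add_distrib, ← Finset.sum_sub_distrib]
    refine Finset.sum_congr rfl fun y _ => ?_
    ring
  have h2 : ∑ x ∈ X, ∑ y ∈ X, eta x * S x y * eta y * u x ^ 2 =
      ∑ x ∈ X, eta x * iota x * u x ^ 2 := by
    refine Finset.sum_congr rfl fun x hx => ?_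
    rw [← hW x hx, Finset.mul_sum, Finset.sum_mul]
    refine Finset.sum_congr rfl fun y _ => ?_
    ring
  have h3 : ∑ x ∈ X, ∑ y ∈ X, eta x * S x y * eta y * u y ^ 2 =
      ∑ x ∈ X, eta x * iota x * u x ^ 2 := by
    rw [Finset.sum_comm, ← h2]
    refine Finset.sum_congr rfl fun x hx => Finset.sum_congr rfl fun y hy => ?_
    rw [hS y hy x hx]; ring
  unfold Qf
  rw [h1, h2, h3]
  ring

end form

variable {W : Type} [Fintype W]

/-- **the triangle sum from (H4low)** -/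
theorem II_le [NeZero L] (hd : 3 ≤ d) (l : ℝ) (hl : 1 ≤ l) (hlL : l ≤ L)
    {X A : Finset (Fin d → ZMod L)} (hAX : A ⊆ X) {eta iota dl om : (Fin d → ZMod L) → ℝ}
    {G : (Fin d → ZMod L) → (Fin d → ZMod L) → ℂ} {e : W → (Fin d → ZMod L)} {U : W → ℝ}
    {K mm mk Cw Cu Ci dA : ℝ} (hK : 0 < K) (hmm : 0 ≤ mm) (he : Function.Injective e)
    (heA : ∀ w, U w ≠ 0 → e w ∈ A)
    (heta : ∀ x ∈ X, 0 ≤ eta x) (hi0 : ∀ x ∈ X, 0 ≤ iota x) (hiC : ∀ x ∈ X, iota x ≤ Ci)
    (hdl : ∀ x ∈ X, 0 ≤ dl x) (hdA : ∀ x ∈ A, dl x ≤ dA)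
    (hom0 : ∀ y, 0 ≤ om y) (hom : ∀ y ∈ A, om y ≤ Cw * eta y) (homA : ∀ y, y ∉ A → om y = 0)
    (hCw : 0 ≤ Cw) (hCu : 0 ≤ Cu) (hU : ∀ w, U w ^ 2 ≤ Cu * eta (e w))
    (hmA : ∀ x ∈ A, eta x * iota x ≤ mm) (hmk : 0 < mk)
    (hmk' : mk ≤ ∑ x ∈ X, min (eta x * iota x) mm / (1 + dl x))
    (hS : ∀ x ∈ X, ∀ y ∈ X, ‖G x y‖ ^ 2 = ‖G y x‖ ^ 2)
    (hW : ∀ x ∈ X, ∑ y ∈ X, eta y * ‖G x y‖ ^ 2 = iota x)
    (h4 : ∀ u : (Fin d → ZMod L) → ℝ, ∃ a : (Fin d → ZMod L) → ℝ,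
      DT a / K + ∑ x ∈ X, eta x * iota x * (u x - a x) ^ 2 / (1 + dl x) ≤
        Qf X eta (fun x y => ‖G x y‖ ^ 2) u)
    {x : Fin d → ZMod L} (hx : x ∈ X) :
    II om U G e x ≤ Cw * Cu * (Ci * (dA + 4 * CH d * l ^ 2 * K * mm) *
        (∑ y ∈ A, eta y * ‖G x y‖ ^ 4) +
      (28 * CH d * rho d l * K + (3 + 24 * CH d * l ^ 2 * K * mm) / mk) * (Ci * iota x) ^ 2) := by
  classical
  set u : (Fin d → ZMod L) → ℝ := fun y => if y ∈ A then ‖G x y‖ ^ 2 else 0 with hu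
  have hu0 : ∀ y, 0 ≤ u y := fun y => by
    simp only [hu]; split_ifs
    · positivity
    · exact le_rfl
  obtain ⟨a, ha⟩ := h4 u
  have hCH : 0 ≤ CH d := by unfold CH; positivity
  have hrho : 0 ≤ rho d l := by unfold rho; positivity
  have hs : ∀ y ∈ X, u y ≠ 0 → eta y * iota y ≤ mm := fun y _ h0 => by
    by_cases hyA : y ∈ A
    · exact hmA y hyA
    · exact absurd (by simp [hu, hyA]) h0
  have h1 := phi_le hd l hl hlL X (fun y => eta y * iota y) dl K mm mk _ hK hmm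
    (fun y hy => mul_nonneg (heta y hy) (hi0 y hy)) hdl hmk hmk' u a hs ha
  rw [form_id hS hW u] at h1
  -- the triangle sum
  have h2 : II om U G e x ≤ Cw * Cu *
      ∑ y ∈ X, ∑ z ∈ X, (u y * eta y) * ‖G y z‖ ^ 2 * (eta z * u z) := by
    have h3 : II om U G e x ≤ ∑ w, ∑ y ∈ A, Cw * Cu * (u (e w) * eta (e w) *
        ‖G (e w) y‖ ^ 2 * (eta y * u y)) * (if U w = 0 then 0 else 1) := by
      unfold II
      refine Finset.sum_le_sum fun w _ => ?_
      have h4 : ∑ y, om y * (U w ^ 2 * (‖G x y‖ ^ 2 * (‖G x (e w)‖ ^ 2 * ‖G (e w) y‖ ^ 2))) =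
          ∑ y ∈ A, om y * (U w ^ 2 * (‖G x y‖ ^ 2 * (‖G x (e w)‖ ^ 2 * ‖G (e w) y‖ ^ 2))) := by
        symm
        refine Finset.sum_subset (Finset.subset_univ A) fun y _ hy => ?_
        rw [homA y hy, zero_mul]
      rw [h4]
      refine Finset.sum_le_sum fun y hy => ?_
      by_cases h0 : U w = 0
      · simp [h0]
      · rw [if_neg h0, mul_one]
        have hw := heA w h0
        have e1 : u (e w) = ‖G x (e w)‖ ^ 2 := by simp [hu, hw]
        have e2 : u y = ‖G x y‖ ^ 2 := by simp [hu, hy]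
        rw [e1, e2]
        have h5 := hom y hy
        have h6 := hU w
        have h7 := heta y (hAX hy)
        calc om y * (U w ^ 2 * (‖G x y‖ ^ 2 * (‖G x (e w)‖ ^ 2 * ‖G (e w) y‖ ^ 2)))
            ≤ (Cw * eta y) * ((Cu * eta (e w)) * (‖G x y‖ ^ 2 * (‖G x (e w)‖ ^ 2 *
              ‖G (e w) y‖ ^ 2))) := by
              refine mul_le_mul h5 ?_ (by positivity) (by positivity)
              exact mul_le_mul_of_nonneg_right h6 (by positivity)
          _ = _ := by ring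
    refine h3.trans ?_
    rw [Finset.mul_sum]
    have h8 : ∀ z ∈ X, 0 ≤ Cw * Cu * ∑ y ∈ X, (u z * eta z) * ‖G z y‖ ^ 2 * (eta y * u y) := by
      intro z hz
      refine mul_nonneg (mul_nonneg hCw hCu) (Finset.sum_nonneg fun y hy => ?_)
      have := heta z hz
      have := heta y hy
      have := hu0 z
      have := hu0 y
      positivity
    have h9 : ∑ w, ∑ y ∈ A, Cw * Cu * (u (e w) * eta (e w) *
        ‖G (e w) y‖ ^ 2 * (eta y * u y)) * (if U w = 0 then 0 else 1) ≤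
        ∑ w ∈ univ.filter (fun w => U w ≠ 0),
          Cw * Cu * ∑ y ∈ X, (u (e w) * eta (e w)) * ‖G (e w) y‖ ^ 2 * (eta y * u y) := by
      rw [Finset.sum_filter]
      refine Finset.sum_le_sum fun w _ => ?_
      by_cases h0 : U w = 0
      · simp [h0]
      · rw [if_pos h0]
        simp only [if_neg h0, mul_one]
        rw [← Finset.mul_sum]
        refine mul_le_mul_of_nonneg_left ?_ (mul_nonneg hCw hCu)
        refine Finset.sum_le_sum_of_subset_of_nonneg hAX fun y hy _ => ?_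
        have := heta _ (hAX (heA w h0))
        have := heta y hy
        have := hu0 (e w)
        have := hu0 y
        positivity
    refine h9.trans ?_
    rw [← Finset.sum_image (s := univ.filter (fun w => U w ≠ 0)) (g := e)
      (f := fun z => Cw * Cu * ∑ y ∈ X, (u z * eta z) * ‖G z y‖ ^ 2 * (eta y * u y))
      (fun _ _ _ _ hh => he hh)]
    refine Finset.sum_le_sum_of_subset_of_nonneg ?_ fun z hz _ => h8 z hz
    intro z hz
    obtain ⟨w, hw, rfl⟩ := Finset.mem_image.1 hz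
    exact hAX (heA w (Finset.mem_filter.1 hw).2)
  refine h2.trans (mul_le_mul_of_nonneg_left (h1.trans ?_) (mul_nonneg hCw hCu))
  -- bounds of the right side
  have h10 : ∑ y ∈ X, eta y * iota y * u y ^ 2 ≤ Ci * ∑ y ∈ A, eta y * ‖G x y‖ ^ 4 := by
    have h11 : ∑ y ∈ X, eta y * iota y * u y ^ 2 = ∑ y ∈ A, eta y * iota y * u y ^ 2 := by
      symm
      refine Finset.sum_subset hAX fun y _ hy => ?_
      simp [hu, hy]
    rw [h11, Finset.mul_sum]
    refine Finset.sum_le_sum fun y hy => ?_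
    have e2 : u y = ‖G x y‖ ^ 2 := by simp [hu, hy]
    rw [e2]
    have h12 := hiC y (hAX hy)
    have h13 := heta y (hAX hy)
    calc eta y * iota y * (‖G x y‖ ^ 2) ^ 2 ≤ eta y * Ci * (‖G x y‖ ^ 2) ^ 2 := by gcongr
      _ = _ := by ring
  have h14 : ∑ y ∈ X, dl y / (1 + dl y) * (eta y * iota y * u y ^ 2) ≤
      dA * ∑ y ∈ X, eta y * iota y * u y ^ 2 := by
    rw [Finset.mul_sum]
    refine Finset.sum_le_sum fun y hy => ?_
    by_cases hyA : y ∈ A
    · have h15 := hdl y hy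
      have h16 : dl y / (1 + dl y) ≤ dA := by
        refine le_trans ?_ (hdA y hyA)
        rw [div_le_iff₀ (by linarith)]
        nlinarith
      have := heta y hy
      have := hi0 y hy
      exact mul_le_mul_of_nonneg_right h16 (by positivity)
    · simp [hu, hyA]
  have h17 : ∑ y ∈ X, eta y * iota y * |u y| ≤ Ci * iota x := by
    rw [← hW x hx, Finset.mul_sum]
    refine Finset.sum_le_sum fun y hy => ?_
    rw [abs_of_nonneg (hu0 y)]
    have h18 : u y ≤ ‖G x y‖ ^ 2 := by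
      simp only [hu]; split_ifs
      · exact le_rfl
      · positivity
    have h12 := hiC y hy
    have h13 := heta y hy
    have h19 := hi0 y hy
    have h20 := hu0 y
    have h21 : 0 ≤ Ci := h19.trans h12
    calc eta y * iota y * u y ≤ eta y * Ci * ‖G x y‖ ^ 2 := by gcongr
      _ = _ := by ring
  have h18 : 0 ≤ ∑ y ∈ X, eta y * iota y * |u y| := Finset.sum_nonneg fun y hy =>
    mul_nonneg (mul_nonneg (heta y hy) (hi0 y hy)) (abs_nonneg _)
  have h19 : (∑ y ∈ X, eta y * iota y * |u y|) ^ 2 ≤ (Ci * iota x) ^ 2 :=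
    pow_le_pow_left₀ h18 h17 2
  have h20 : 0 ≤ 28 * CH d * rho d l * K + (3 + 24 * CH d * l ^ 2 * K * mm) / mk := by positivity
  have h21 : 0 ≤ 4 * CH d * l ^ 2 * K * mm := by positivity
  have h22 : 0 ≤ ∑ y ∈ X, eta y * iota y * u y ^ 2 := Finset.sum_nonneg fun y hy =>
    mul_nonneg (mul_nonneg (heta y hy) (hi0 y hy)) (sq_nonneg _)
  have h23 : 0 ≤ dA ∨ A = ∅ := by
    by_cases hA : A = ∅
    · exact Or.inr hA
    · obtain ⟨y, hy⟩ := Finset.nonempty_iff_ne_empty.2 hA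
      exact Or.inl ((hdl y (hAX hy)).trans (hdA y hy))
  rcases h23 with h23 | h23
  · calc ∑ y ∈ X, dl y / (1 + dl y) * (eta y * iota y * u y ^ 2) +
          4 * CH d * l ^ 2 * K * mm * ∑ y ∈ X, eta y * iota y * u y ^ 2 +
          (28 * CH d * rho d l * K + (3 + 24 * CH d * l ^ 2 * K * mm) / mk) *
            (∑ y ∈ X, eta y * iota y * |u y|) ^ 2
        ≤ dA * (Ci * ∑ y ∈ A, eta y * ‖G x y‖ ^ 4) +
          4 * CH d * l ^ 2 * K * mm * (Ci * ∑ y ∈ A, eta y * ‖G x y‖ ^ 4) +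
          (28 * CH d * rho d l * K + (3 + 24 * CH d * l ^ 2 * K * mm) / mk) *
            (Ci * iota x) ^ 2 := by
          refine add_le_add (add_le_add ?_ ?_) ?_
          · exact h14.trans (mul_le_mul_of_nonneg_left h10 h23)
          · exact mul_le_mul_of_nonneg_left h10 h21
          · exact mul_le_mul_of_nonneg_left h19 h20
      _ = _ := by ring
  · have hu' : ∀ y, u y = 0 := fun y => by simp [hu, h23]
    simp only [hu', h23, Finset.sum_empty]
    have : 0 ≤ (28 * CH d * rho d l * K + (3 + 24 * CH d * l ^ 2 * K * mm) / mk) *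
            (Ci * iota x) ^ 2 := by positivity
    simp
    exact this

end Pool.Agent.ANS.T4
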