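import Pool.Agent.ANS.T4.Top
import Pool.Agent.ANS.ObsOk

/-! # ANS/T4 Use: start and use of the T4 functional -/

set_option autoImplicit false
set_option linter.unusedSectionVars false

open Finset Function Matrix

noncomputable section

namespace Pool.Agent.ANS

open Pool.Agent.Kin Pool.Agent.APS Pool.Agent.ANL

variable {T D : Type} [Fintype T] [DecidableEq T]

namespace Stp

variable {P : Stp T D} {X Y : Finset T} {e : T → ℝ}

theorem Tx_nonneg (P : Stp T D) (Y : Finset T) (s : T → Option D) (x : T) : 0 ≤ P.Tx Y s x :=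
  Finset.sum_nonneg fun _ _ => by positivity

theorem GamT_nonneg (he : ∀ x ∈ X, 0 < e x) (t : ℝ) (p : ℕ) (s : T → Option D) :
    0 ≤ P.GamT X Y e t p s :=
  Finset.sum_nonneg fun x _ => mul_nonneg (he x.1 x.2).le ((even_two_mul p).pow_nonneg _)

theorem GamT_nil (t : ℝ) {p : ℕ} (hp : 1 ≤ p) : P.GamT X Y e t p nil = 0 := by
  unfold GamT
  refine Finset.sum_eq_zero fun x _ => ?_
  rw [sub_self, Complex.ofReal_zero, norm_zero, zero_div, zero_pow (by omega), mul_zero]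

theorem GamT_use (he : ∀ x ∈ X, 0 < e x) {t t' : ℝ} (ht : 0 < t) (ht' : 0 ≤ t') {p : ℕ}
    (hb : ∀ x ∈ X, 1 < e x * (t' / t) ^ (2 * p)) {s : T → Option D}
    (hs : P.GamT X Y e t p s ≤ 1) : ∀ x ∈ X, P.Tx Y s x ≤ P.Tx Y nil x + t' := by
  intro x hx
  have h1 : ‖((P.Tx Y s x - P.Tx Y nil x : ℝ) : ℂ)‖ ≤ t' := by
    refine use_pow ht ht' (le_trans ?_ hs) (hb x hx) (he x hx).le
    unfold GamT
    exact Finset.single_le_sum
      (f := fun x : ↥X => e x.1 * (‖((P.Tx Y s x.1 - P.Tx Y nil x.1 : ℝ) : ℂ)‖ / t) ^ (2 * p))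
      (fun y _ => mul_nonneg (he y.1 y.2).le ((even_two_mul p).pow_nonneg _))
      (Finset.mem_univ (⟨x, hx⟩ : ↥X))
  rw [Complex.norm_real, Real.norm_eq_abs] at h1
  linarith [le_abs_self (P.Tx Y s x - P.Tx Y nil x)]

end Stp

end Pool.Agent.ANS
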